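import Mathlib

/-!
Union bounds, hitting families, dispersers and shattered sets.
-/

namespace Pool.Agent.MP_6b3410_lc.R5

open Classical Finset

lemma sub {α C Λ : Type} [Fintype C] [Fintype Λ] (Ω : Finset α) (hΩ : Ω.Nonempty)
    (Bad : C → α → Prop) (η : ℝ)
    (hη : ∀ c, ∀ B ⊆ Ω, (∀ a ∈ B, Bad c a) → (B.card : ℝ) ≤ η * Ω.card)
    (h : Fintype.card C * η ^ Fintype.card Λ < 1) :
    ∃ w : Λ → α, (∀ l, w l ∈ Ω) ∧ ∀ c, ∃ l, ¬ Bad c (w l) := by
  by_contra hc
  push Not at hc
  have h1 : Fintype.piFinset (fun _ : Λ => Ω) ⊆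
      univ.biUnion fun c => Fintype.piFinset fun _ : Λ => Ω.filter (Bad c) := fun w hw => by
    have hw := Fintype.mem_piFinset.1 hw
    obtain ⟨c, h⟩ := hc w hw
    exact mem_biUnion.2 ⟨c, mem_univ _, Fintype.mem_piFinset.2 fun l => mem_filter.2 ⟨hw l, h l⟩⟩
  have h2 := (card_le_card h1).trans card_biUnion_le
  simp only [Fintype.card_piFinset, prod_const, card_univ] at h2
  have h3 : (Ω.card : ℝ) ^ Fintype.card Λ ≤
      ∑ c, ((Ω.filter (Bad c)).card : ℝ) ^ Fintype.card Λ := by exact_mod_cast h2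
  have h4 : ∑ c, ((Ω.filter (Bad c)).card : ℝ) ^ Fintype.card Λ ≤
      Fintype.card C * (η * Ω.card) ^ Fintype.card Λ := by
    rw [← nsmul_eq_mul, ← card_univ]
    exact sum_le_card_nsmul _ _ _ fun c _ => pow_le_pow_left₀ (by positivity)
      (hη c _ (filter_subset _ _) fun a ha => (mem_filter.1 ha).2) _
  have h5 : (0 : ℝ) < (Ω.card : ℝ) ^ Fintype.card Λ := by
    have := hΩ.card_pos
    positivity
  rw [mul_pow, ← mul_assoc] at h4
  nlinarith

lemma card_avoid {T Q I : Type} [Fintype T] [DecidableEq T] [Fintype Q] [Fintype I] (ι : I → T)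
    (hι : Function.Injective ι) (S : I → Finset Q) (θ : ℝ)
    (hS : ∀ a, (Fintype.card Q : ℝ) - (S a).card ≤ θ * Fintype.card Q) (B : Finset (T → Q))
    (hB : ∀ p ∈ B, ∀ a, p (ι a) ∉ S a) :
    (B.card : ℝ) ≤ θ ^ Fintype.card I * Fintype.card Q ^ Fintype.card T := by
  have h1 : B ⊆ Fintype.piFinset fun x => univ.filter fun q => ∀ a, ι a = x → q ∉ S a :=
    fun p hp => Fintype.mem_piFinset.2 fun x => mem_filter.2 ⟨mem_univ _, fun a e => e ▸ hB p hp a⟩
  have h2 : θ ^ Fintype.card I = ∏ x : T, if x ∈ univ.image ι then θ else 1 := by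
    rw [prod_ite_mem, univ_inter, prod_const, card_image_of_injective _ hι, card_univ]
  refine (Nat.cast_le.2 (card_le_card h1)).trans ?_
  rw [h2, Fintype.card_piFinset, ← card_univ (α := T)]
  push_cast
  rw [← prod_const, ← prod_mul_distrib]
  refine prod_le_prod (fun _ _ => by positivity) fun x _ => ?_
  split_ifs with hx
  · obtain ⟨a, -, rfl⟩ := mem_image.1 hx
    refine le_trans ?_ (hS a)
    rw [← Nat.cast_sub (card_le_univ _), ← card_compl]
    exact Nat.cast_le.2 (card_le_card fun q hq => mem_compl.2 ((mem_filter.1 hq).2 a rfl))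
  · rw [one_mul]
    exact_mod_cast card_le_univ _

lemma ht {G T Q : Type} [Fintype G] [Fintype T] [Fintype Q] [Nonempty Q] (H m L : ℕ) (hH : 0 < H)
    (h1 : 2 * Fintype.card G ≤ 2 ^ m)
    (h2 : Fintype.card G * (H * m) * (Fintype.card Q + Fintype.card T) < L) :
    ∃ p : Fin L → T → Q, ∀ ι : G × Fin (H * m) → T, Function.Injective ι →
      ∀ S : G × Fin (H * m) → Finset Q, (∀ x, Fintype.card Q ≤ H * (S x).card) →
        ∃ l, ∀ γ, ∃ a, p l (ι (γ, a)) ∈ S (γ, a) := by
  have hH0 : (1 : ℝ) ≤ H := by exact_mod_cast hH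
  have hθ : (1 - 1 / H : ℝ) ^ H ≤ 1 / 2 := by
    refine (Real.one_sub_div_pow_le_exp_neg hH0).trans ?_
    rw [Real.exp_neg, ← one_div]
    exact one_div_le_one_div_of_le (by norm_num) (by linarith [Real.add_one_le_exp 1])
  have hθ0 : (0 : ℝ) ≤ 1 - 1 / H := sub_nonneg.2 ((div_le_one (by linarith)).2 hH0)
  obtain ⟨p, -, hp⟩ := sub (Λ := Fin L) (univ : Finset (T → Q)) univ_nonempty
    (fun (c : (G × Fin (H * m) → T) × (G × Fin (H * m) → Finset Q)) p =>
      (Function.Injective c.1 ∧ ∀ x, Fintype.card Q ≤ H * (c.2 x).card) ∧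
        ∃ γ, ∀ a, p (c.1 (γ, a)) ∉ c.2 (γ, a)) (1 / 2) (by
      rintro ⟨ι, S⟩ B - hB
      rcases B.eq_empty_or_nonempty with rfl | ⟨p0, hp0⟩
      · simp
      have hv := (hB p0 hp0).1
      have e1 : ∀ γ, ((B.filter fun p : T → Q => ∀ a, p (ι (γ, a)) ∉ S (γ, a)).card : ℝ) ≤
          (1 / 2) ^ m * Fintype.card Q ^ Fintype.card T := by
        intro γ
        refine (card_avoid (fun a => ι (γ, a)) (fun a b e => by simpa using hv.1 e)
          (fun a => S (γ, a)) (1 - 1 / H) (fun a => ?_) _ fun p hp => (mem_filter.1 hp).2).trans ?_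
        · have e2 : (Fintype.card Q : ℝ) ≤ H * (S (γ, a)).card := by exact_mod_cast hv.2 (γ, a)
          rw [sub_mul, one_mul, one_div_mul_eq_div]
          exact sub_le_sub_left ((div_le_iff₀' (by linarith)).2 e2) _
        · rw [Fintype.card_fin, pow_mul]
          gcongr
      have e2 : B ⊆
          univ.biUnion fun γ => B.filter fun p : T → Q => ∀ a, p (ι (γ, a)) ∉ S (γ, a) :=
        fun p hp => by
          obtain ⟨γ, h⟩ := (hB p hp).2
          exact mem_biUnion.2 ⟨γ, mem_univ _, mem_filter.2 ⟨hp, h⟩⟩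
      have e3 : (2 : ℝ) * Fintype.card G ≤ 2 ^ m := by exact_mod_cast h1
      calc _ ≤ ∑ γ, ((B.filter fun p : T → Q => ∀ a, p (ι (γ, a)) ∉ S (γ, a)).card : ℝ) := by
            exact_mod_cast (card_le_card e2).trans card_biUnion_le
        _ ≤ Fintype.card G * ((1 / 2) ^ m * Fintype.card Q ^ Fintype.card T) := by
            rw [← nsmul_eq_mul, ← card_univ]
            exact sum_le_card_nsmul _ _ _ fun γ _ => e1 γ
        _ ≤ _ := by
            rw [← mul_assoc, card_univ, Fintype.card_fun, Nat.cast_pow]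
            refine mul_le_mul_of_nonneg_right ?_ (by positivity)
            rw [one_div_pow, mul_one_div, div_le_iff₀ (by positivity)]
            linarith)
    (by
      simp only [Fintype.card_prod, Fintype.card_fun, Fintype.card_finset, Fintype.card_fin]
      rw [one_div_pow, mul_one_div, div_lt_one (by positivity)]
      have e1 : Fintype.card T ≤ 2 ^ Fintype.card T := Nat.lt_two_pow_self.le
      have e2 := Nat.pow_le_pow_left e1 (Fintype.card G * (H * m))
      have e3 := Nat.pow_lt_pow_right (a := 2) (by norm_num) h2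
      exact_mod_cast (Nat.mul_le_mul_right _ e2).trans_lt (lt_of_eq_of_lt (by ring) e3))
  refine ⟨p, fun ι hι S hS => ?_⟩
  obtain ⟨l, hl⟩ := hp (ι, S)
  exact ⟨l, fun γ => by
    by_contra hc
    push Not at hc
    exact hl ⟨⟨hι, hS⟩, γ, hc⟩⟩

lemma hall {G T J : Type} [Fintype G] (side : G → Bool) (hit : Bool → Finset T)
    (col : T → J) (h : ∀ s, Fintype.card G ≤ ((hit s).image col).card) :
    ∃ ι : G → T, (∀ γ, ι γ ∈ hit (side γ)) ∧ Function.Injective (col ∘ ι) := by
  obtain ⟨f, hf, hf'⟩ := (all_card_le_biUnion_card_iff_exists_injective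
    fun γ => (hit (side γ)).image col).1 fun s => by
      rcases s.eq_empty_or_nonempty with rfl | ⟨γ, hγ⟩
      · simp
      · exact (card_le_univ _).trans ((h (side γ)).trans (card_le_card
          (subset_biUnion_of_mem (fun γ => (hit (side γ)).image col) hγ)))
  choose ι h1 h2 using fun γ => mem_image.1 (hf' γ)
  exact ⟨ι, h1, (funext h2 : col ∘ ι = f) ▸ hf⟩

lemma fib {X : Type} (X0 : Finset X) (f : X → ℕ) (h n : ℕ) (hn : 0 < n) (hf : ∀ x, f x ≤ n)
    (H : X0.card * n ≤ h * ∑ x ∈ X0, f x) :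
    X0.card ≤ 2 * h * (X0.filter fun x => n ≤ 2 * h * f x).card := by
  have h1 := sum_filter_add_sum_filter_not X0 (fun x => n ≤ 2 * h * f x) f
  have h2 := sum_le_card_nsmul (X0.filter fun x => n ≤ 2 * h * f x) f n fun x _ => hf x
  have h3 := sum_le_card_nsmul (X0.filter fun x => ¬ n ≤ 2 * h * f x) (fun x => 2 * h * f x) n
    fun x hx => (not_le.1 (mem_filter.1 hx).2).le
  have h4 := card_filter_le X0 fun x => ¬ n ≤ 2 * h * f x
  rw [← mul_sum] at h3
  rw [← h1] at H
  simp only [smul_eq_mul] at h2 h3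
  refine Nat.le_of_mul_le_mul_right ?_ hn
  nlinarith [Nat.mul_le_mul_right n h4, Nat.mul_le_mul_left h h2]

lemma dsp (t m : ℕ) (h : 2 * t + 2 ≤ 2 ^ m) : ∃ φ : (Fin t → Bool) → Bool,
    ∀ (F : Finset (Fin t)) (u v : (Fin m → Bool) → Fin t → Bool) (β : Bool),
      (Function.Injective fun a : (Fin m → Bool) × (Fin m → Bool) =>
        fun i => if i ∈ F then u a.1 i else v a.2 i) →
      ∃ a b, φ (fun i => if i ∈ F then u a i else v b i) ≠ β := by
  obtain ⟨φ, -, hφ⟩ := sub (Λ := Unit) (univ : Finset ((Fin t → Bool) → Bool)) univ_nonempty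
    (fun (c : Finset (Fin t) × ((Fin m → Bool) → Fin t → Bool) ×
        ((Fin m → Bool) → Fin t → Bool) × Bool) φ =>
      (Function.Injective fun a : (Fin m → Bool) × (Fin m → Bool) =>
        fun i => if i ∈ c.1 then c.2.1 a.1 i else c.2.2.1 a.2 i) ∧
      ∀ a : (Fin m → Bool) × (Fin m → Bool),
        φ (fun i => if i ∈ c.1 then c.2.1 a.1 i else c.2.2.1 a.2 i) ∉ ({!c.2.2.2} : Finset Bool))
    ((1 / 2) ^ (2 ^ m * 2 ^ m)) (by
      rintro ⟨F, u, v, β⟩ B - hB
      rcases B.eq_empty_or_nonempty with rfl | ⟨p0, hp0⟩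
      · simp
      simpa using card_avoid _ (hB p0 hp0).1 (fun _ => ({!β} : Finset Bool)) (1 / 2)
        (fun _ => by norm_num) B fun p hp => (hB p hp).2)
    (by
      simp only [Fintype.card_prod, Fintype.card_fun, Fintype.card_finset, Fintype.card_fin,
        Fintype.card_bool, Fintype.card_unit, pow_one]
      rw [one_div_pow, mul_one_div, div_lt_one (by positivity)]
      have e3 := Nat.pow_lt_pow_right (a := 2) (by norm_num)
        (show t + 2 * t * 2 ^ m + 1 < 2 ^ m * 2 ^ m by nlinarith)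
      exact_mod_cast lt_of_eq_of_lt (by ring) e3)
  refine ⟨φ (), fun F u v β hv => ?_⟩
  obtain ⟨_, hl⟩ := hφ (F, u, v, β)
  by_contra hc
  push Not at hc
  exact hl ⟨hv, fun a => by simp [hc]⟩

lemma pigeon {M : ℕ} {C : Type} [Fintype C] (Φ : (Fin M → Bool) → C → Bool) :
    ∃ y : C → Bool, 2 ^ M ≤ 2 ^ Fintype.card C * {z | ∀ c, Φ z c = y c}.ncard := by
  obtain ⟨y, -, hy⟩ := exists_max_image (univ : Finset (C → Bool))
    (fun y => (univ.filter fun z => Φ z = y).card) univ_nonempty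
  have h1 := card_eq_sum_card_fiberwise (s := univ) (t := univ) (f := Φ) fun _ _ => mem_univ _
  have h2 := sum_le_card_nsmul _ _ _ hy
  refine ⟨y, ?_⟩
  rw [show {z | ∀ c, Φ z c = y c} = ↑(univ.filter fun z => Φ z = y) by ext; simp [funext_iff],
    Set.ncard_coe_finset]
  simpa using h1.trans_le h2

lemma shat {M : ℕ} (R : Finset (Fin M → Bool)) (F : Finset (Fin M)) (w : Fin M → Bool)
    (hw : ∀ u ∈ R, ∀ i, i ∉ F → u i = w i) (d : ℕ)
    (h : ∑ k ∈ range (d + 1), M.choose k < R.card) :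
    ∃ D ⊆ F, d < D.card ∧ ∀ a : Fin M → Bool, ∃ u ∈ R, ∀ i ∈ D, u i = a i := by
  let φ : (Fin M → Bool) → Finset (Fin M) := fun u => univ.filter fun i => u i = true
  have hφ : Function.Injective φ := fun u v huv => funext fun i => by
    have := congrArg (fun s => i ∈ s) huv
    simpa [φ] using this
  obtain ⟨s, hs, hc⟩ : ∃ s ∈ (R.image φ).shatterer, d + 1 ≤ s.card := by
    by_contra hcon
    push Not at hcon
    have h1 := (R.image φ).card_le_card_shatterer
    rw [card_image_of_injective _ hφ] at h1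
    have h2 : (R.image φ).shatterer ⊆ (range (d + 1)).biUnion fun k => powersetCard k univ :=
      fun s hs => mem_biUnion.2 ⟨s.card, mem_range.2 (hcon s hs), by simp⟩
    have h3 := (card_le_card h2).trans card_biUnion_le
    simp only [card_powersetCard, card_univ, Fintype.card_fin] at h3
    omega
  have key : ∀ a : Fin M → Bool, ∃ u ∈ R, ∀ i ∈ s, u i = a i := by
    intro a
    obtain ⟨t, ht, hst⟩ := mem_shatterer.1 hs (t := s ∩ φ a) inter_subset_left
    obtain ⟨u, hu, rfl⟩ := mem_image.1 ht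
    refine ⟨u, hu, fun i hi => ?_⟩
    have := congrArg (fun s' => i ∈ s') hst
    simpa [φ, hi] using this
  refine ⟨s, fun i hi => ?_, hc, key⟩
  by_contra hF
  obtain ⟨u, hu, h1⟩ := key fun _ => !w i
  have := h1 i hi
  rw [hw u hu i hF] at this
  simp at this

lemma tail (δ : ℝ) (hδ : 0 < δ) : ∃ h : ℕ, 0 < h ∧ ∀ M : ℕ, 2 ≤ δ * M →
    ((∑ k ∈ range (M / h + 1), M.choose k + 1 : ℕ) : ℝ) ≤ Real.exp (δ * M) := by
  set x : ℝ := min (δ / 4) 1 with hx
  have hx0 : 0 < x := lt_min (by positivity) one_pos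
  have hx1 : x ≤ 1 := min_le_right _ _
  have hx2 : x ≤ δ / 4 := min_le_left _ _
  have hl : 0 ≤ -Real.log x := neg_nonneg.2 (Real.log_nonpos hx0.le hx1)
  obtain ⟨h, hh⟩ := exists_nat_gt (4 * (-Real.log x) / δ)
  have hh0 : 0 < h := by
    have : (0 : ℝ) < h := lt_of_le_of_lt (by positivity) hh
    exact_mod_cast this
  refine ⟨h, hh0, fun M hM => ?_⟩
  have h1 : (∑ k ∈ range (M / h + 1), (M.choose k : ℝ)) * x ^ (M / h) ≤ (x + 1) ^ M := by
    rw [add_pow, sum_mul]
    refine le_trans (sum_le_sum fun k hk => ?_) (sum_le_sum_of_subset_of_nonneg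
      (range_mono (Nat.succ_le_succ (Nat.div_le_self M h))) fun _ _ _ => by positivity)
    rw [one_pow, mul_one, mul_comm]
    exact mul_le_mul_of_nonneg_right
      (pow_le_pow_of_le_one hx0.le hx1 (Nat.lt_succ_iff.1 (mem_range.1 hk))) (by positivity)
  have h2 : (x + 1) ^ M ≤ Real.exp (δ * M / 4) := by
    calc _ ≤ Real.exp (δ / 4) ^ M := by
          gcongr
          linarith [Real.add_one_le_exp (δ / 4)]
      _ = _ := by rw [← Real.exp_nat_mul]; ring_nf
  have h3 : Real.exp (-(δ * M / 4)) ≤ x ^ (M / h) := by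
    rw [← Real.exp_log hx0, ← Real.exp_nat_mul, Real.exp_le_exp]
    have e1 : ((M / h : ℕ) : ℝ) * h ≤ M := by exact_mod_cast Nat.div_mul_le_self M h
    rw [div_lt_iff₀ hδ] at hh
    have e2 : (0 : ℝ) ≤ (M / h : ℕ) := by positivity
    nlinarith [mul_le_mul_of_nonneg_left hh.le e2, mul_le_mul_of_nonneg_right e1 hδ.le]
  have h4 : ∑ k ∈ range (M / h + 1), (M.choose k : ℝ) ≤ Real.exp (δ * M / 2) := by
    have e1 := (mul_le_mul_of_nonneg_left h3 (by positivity)).trans (h1.trans h2)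
    rwa [Real.exp_neg, ← div_eq_mul_inv, div_le_iff₀ (Real.exp_pos _), ← Real.exp_add,
      show δ * M / 4 + δ * M / 4 = δ * M / 2 by ring] at e1
  have h5 : Real.exp (δ * M) = Real.exp (δ * M / 2) * Real.exp (δ * M / 2) := by
    rw [← Real.exp_add]; ring_nf
  have h6 := Real.add_one_le_exp (δ * M / 2)
  push_cast
  nlinarith

end Pool.Agent.MP_6b3410_lc.R5
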