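import Mathlib
import Pool.Agent.MP_6b3410_lc.H9.HardB

/-!
The counting lemma for induced matchings in a bipartite graph of small cut norm.
-/

namespace Pool.Agent.MP_6b3410_lc.R5

open Classical Finset

/-- small cut norm -/
def Cut {U U' : Type} [Fintype U] [Fintype U'] (g : U → U' → ℝ) (ε : ℝ) : Prop :=
  ∀ (f : U → ℝ) (h : U' → ℝ), (∀ u, |f u| ≤ 1) → (∀ u, |h u| ≤ 1) →
    |∑ u, ∑ u', f u * h u' * g u u'| ≤ ε * (Fintype.card U * Fintype.card U')

/-- the sign matrix of a relation -/
noncomputable def sg {U U' : Type} (al : U → U' → Prop) (u : U) (u' : U') : ℝ :=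
  if al u u' then -1 else 1

lemma sum_update {t : ℕ} {α : Type} [Fintype α] (F : (Fin t → α) → ℝ) (i : Fin t) :
    ∑ x, ∑ u, F (Function.update x i u) = Fintype.card α * ∑ x, F x := by
  let e : (Fin t → α) × α → (Fin t → α) × α := fun p => (Function.update p.1 i p.2, p.1 i)
  have he : Function.Involutive e := fun p => by simp [e]
  rw [← Fintype.sum_prod_type', show ∑ p : (Fin t → α) × α, F (Function.update p.1 i p.2) =
    ∑ p : (Fin t → α) × α, F p.1 from he.bijective.sum_comp fun p => F p.1, Fintype.sum_prod_type,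
    mul_sum]
  simp

variable {U U' : Type} [Fintype U] [Fintype U'] [Nonempty U] [Nonempty U'] {t : ℕ} {ε : ℝ}

lemma key {g : U → U' → ℝ} (hg : Cut g ε) (h : Fin t × Fin t → U → U' → ℝ)
    (hh : ∀ p u u', |h p u u'| ≤ 1) (e : Fin t × Fin t) (he : h e = g) :
    |∑ x : Fin t → U, ∑ y : Fin t → U', ∏ p, h p (x p.1) (y p.2)| ≤
      ε * ((Fintype.card U : ℝ) * Fintype.card U') ^ t := by
  have hN : (0 : ℝ) < Fintype.card U * Fintype.card U' := by
    have := Fintype.card_pos (α := U)
    have := Fintype.card_pos (α := U')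
    positivity
  have h1 : (Fintype.card U * Fintype.card U' : ℝ) *
      ∑ x : Fin t → U, ∑ y : Fin t → U', ∏ p, h p (x p.1) (y p.2) =
      ∑ x : Fin t → U, ∑ y : Fin t → U', ∑ u, ∑ u',
        ∏ p, h p (Function.update x e.1 u p.1) (Function.update y e.2 u' p.2) := by
    rw [mul_comm (Fintype.card U : ℝ), mul_assoc, ← sum_update _ e.1, mul_sum]
    refine sum_congr rfl fun x _ => ?_
    rw [mul_sum, sum_comm]
    refine sum_congr rfl fun u _ => ?_
    rw [← sum_update _ e.2]
  have h2 : ∀ (x : Fin t → U) (y : Fin t → U'), |∑ u, ∑ u',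
      ∏ p, h p (Function.update x e.1 u p.1) (Function.update y e.2 u' p.2)| ≤
      ε * (Fintype.card U * Fintype.card U') := by
    intro x y
    have hp : ∀ (s : Finset (Fin t × Fin t)) (a : Fin t → U) (b : Fin t → U'),
        |∏ p ∈ s, h p (a p.1) (b p.2)| ≤ 1 := fun s a b => by
      rw [abs_prod]
      exact prod_le_one (fun _ _ => abs_nonneg _) fun _ _ => hh _ _ _
    refine le_of_eq_of_le (congrArg _ (sum_congr rfl fun u _ => sum_congr rfl fun u' _ => ?_))
      (hg (fun u => ∏ p ∈ (univ.erase e).filter (fun p => p.1 = e.1),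
        h p (Function.update x e.1 u p.1) (y p.2))
      (fun u' => ∏ p ∈ (univ.erase e).filter (fun p => ¬ p.1 = e.1),
        h p (x p.1) (Function.update y e.2 u' p.2)) (fun u => hp _ _ _) fun u => hp _ _ _)
    rw [← prod_erase_mul _ _ (mem_univ e), he, Function.update_self, Function.update_self,
      ← prod_filter_mul_prod_filter_not _ fun p => p.1 = e.1]
    congr 2
    · refine prod_congr rfl fun p hp => ?_
      have := mem_filter.1 hp
      rw [Function.update_of_ne (a := p.2) fun h => (mem_erase.1 this.1).1 (Prod.ext this.2 h)]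
    · refine prod_congr rfl fun p hp => ?_
      rw [Function.update_of_ne (mem_filter.1 hp).2]
  refine le_of_mul_le_mul_left ?_ hN
  rw [← abs_of_pos hN, ← abs_mul, h1, abs_of_pos hN]
  refine (abs_sum_le_sum_abs _ _).trans ((sum_le_sum fun x _ => (abs_sum_le_sum_abs _ _).trans
    (sum_le_sum fun y _ => h2 x y)).trans (le_of_eq ?_))
  simp only [sum_const, card_univ, Fintype.card_fun, Fintype.card_fin, nsmul_eq_mul]
  push_cast
  ring

/-- the induced matchings with edges in prescribed sets -/
noncomputable def mat (al : U → U' → Prop) (S : Fin t → Finset (U × U')) :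
    Finset ((Fin t → U) × (Fin t → U')) :=
  univ.filter fun w => (∀ i, (w.1 i, w.2 i) ∈ S i) ∧ ∀ i j, i ≠ j → ¬ al (w.1 i) (w.2 j)

lemma cl {al : U → U' → Prop} (hg : Cut (sg al) ε) (hε : 0 ≤ ε) (t : ℕ) :
    ∃ c : ℝ, (1 / 2) ^ (t * t) ≤ c ∧ ∀ S : Fin t → Finset (U × U'),
      |(mat al S).card - c * ∏ i, ((S i).card : ℝ)| ≤
        t * t * (ε * ((Fintype.card U : ℝ) * Fintype.card U') ^ t) := by
  refine ⟨∏ p : Fin t × Fin t, if p.1 = p.2 then 1 else 1 / 2, ?_, fun S => ?_⟩
  · refine le_of_eq_of_le (by simp) (prod_le_prod (s := univ) (f := fun _ => (1 / 2 : ℝ))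
      (fun _ _ => by norm_num) fun p _ => ?_)
    split_ifs <;> norm_num
  let H : Finset (Fin t × Fin t) → Fin t × Fin t → U → U' → ℝ := fun E p u u' =>
    if p.1 = p.2 then (if (u, u') ∈ S p.1 then 1 else 0) else
      if p ∈ E then (1 + sg al u u') / 2 else 1 / 2
  let Z : Finset (Fin t × Fin t) → ℝ := fun E =>
    ∑ x : Fin t → U, ∑ y : Fin t → U', ∏ p, H E p (x p.1) (y p.2)
  set err := ε * ((Fintype.card U : ℝ) * Fintype.card U') ^ t with herr
  have h0 : 0 ≤ err := by positivity
  have h1 : ∀ E, |Z E - Z ∅| ≤ E.card * err := by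
    intro E
    induction E using Finset.induction_on with
    | empty => simp
    | insert e E he ih =>
      have e1 : |Z (insert e E) - Z E| ≤ err := by
        by_cases hd : e.1 = e.2
        · have : H (insert e E) = H E := by
            funext p u u'
            by_cases hp : p = e <;> simp [H, hp, hd]
          simp [Z, this, h0]
        have e2 := key hg (Function.update (H E) e (sg al)) (fun p u u' => by
          by_cases hp : p = e
          · rw [hp, Function.update_self, sg]
            split_ifs <;> simp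
          · simp only [Function.update_of_ne hp, H, sg]
            split_ifs <;> norm_num) e (Function.update_self _ _ _)
        have e3 : Z (insert e E) - Z E = 1 / 2 * ∑ x : Fin t → U, ∑ y : Fin t → U',
            ∏ p, Function.update (H E) e (sg al) p (x p.1) (y p.2) := by
          simp only [Z, mul_sum, ← sum_sub_distrib]
          refine sum_congr rfl fun x _ => sum_congr rfl fun y _ => ?_
          simp only [← prod_erase_mul _ _ (mem_univ e), Function.update_self]
          rw [prod_congr (f := fun p => H (insert e E) p (x p.1) (y p.2))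
            (g := fun p => H E p (x p.1) (y p.2)) rfl fun p hp => by
              simp [H, (mem_erase.1 hp).1],
            prod_congr (f := fun p => Function.update (H E) e (sg al) p (x p.1) (y p.2))
            (g := fun p => H E p (x p.1) (y p.2)) rfl fun p hp => by
              rw [Function.update_of_ne (mem_erase.1 hp).1]]
          simp only [H, hd, he, if_false, mem_insert_self, if_true]
          ring
        rw [e3, abs_mul, abs_of_pos (by norm_num : (0 : ℝ) < 1 / 2)]
        linarith
      rw [card_insert_of_notMem he]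
      push_cast
      linarith [abs_sub_le (Z (insert e E)) (Z E) (Z ∅)]
  have h2 : Z univ = (mat al S).card := by
    simp only [Z, mat, card_filter, Fintype.sum_prod_type]
    push_cast
    refine sum_congr rfl fun x _ => sum_congr rfl fun y _ => ?_
    split_ifs with h
    · refine prod_eq_one fun p _ => ?_
      by_cases hp : p.1 = p.2
      · simp [H, ← hp, h.1]
      · simp [H, hp, sg, h.2 _ _ hp]
    · by_cases h' : ∀ i, (x i, y i) ∈ S i
      · have := not_and.1 h h'
        push Not at this
        obtain ⟨i, j, e1, e2⟩ := this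
        exact prod_eq_zero (mem_univ (i, j)) (by simp [H, e1, sg, e2])
      · obtain ⟨i, hi⟩ := not_forall.1 h'
        exact prod_eq_zero (mem_univ (i, i)) (by simp [H, hi])
  have h3 : Z ∅ = (∏ p : Fin t × Fin t, if p.1 = p.2 then 1 else 1 / 2) *
      ∏ i, ((S i).card : ℝ) := by
    have e1 : ∀ i, ((S i).card : ℝ) = ∑ u, ∑ u', if (u, u') ∈ S i then 1 else 0 := fun i => by
      rw [← Fintype.sum_prod_type' fun u u' => if (u, u') ∈ S i then (1 : ℝ) else 0]
      simp
    simp only [e1]
    rw [prod_univ_sum, Fintype.piFinset_univ, mul_sum]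
    refine sum_congr rfl fun x _ => ?_
    rw [prod_univ_sum, Fintype.piFinset_univ, mul_sum]
    refine sum_congr rfl fun y _ => ?_
    have e2 : ∏ i, (if (x i, y i) ∈ S i then (1 : ℝ) else 0) = ∏ p : Fin t × Fin t,
        if p.1 = p.2 then (if (x p.1, y p.2) ∈ S p.1 then 1 else 0) else 1 := by
      rw [Fintype.prod_prod_type]
      simp
    rw [e2, ← prod_mul_distrib]
    refine prod_congr rfl fun p _ => ?_
    by_cases hp : p.1 = p.2 <;> simp [H, hp]
  have := h1 univ
  rwa [h2, h3, card_univ, Fintype.card_prod, Fintype.card_fin, Nat.cast_mul] at this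

lemma lindsey (J : Type) [Fintype J] (D : ℕ) :
    Cut (sg fun (u : Fin (2 * D) → ZMod 2) (v : J × (Fin (2 * D) → ZMod 2)) =>
      ∑ k, u k * v.2 k ≠ 0) (1 / 2 ^ D) := by
  intro f h hf hh
  have hsq : ∀ a : ℝ, |a| ≤ 1 → a ^ 2 ≤ 1 := fun a ha => (sq_le_one_iff_abs_le_one a).2 ha
  have h1 : ∀ j, |∑ u, f u * ∑ v, h (j, v) * H75.chi (∑ k, u k * v k)| ≤ 2 ^ (3 * D) := by
    intro j
    refine abs_le_of_sq_le_sq ((sum_mul_sq_le_sq_mul_sq _ _ _).trans ?_) (by positivity)
    have e1 : ∑ u, f u ^ 2 ≤ 2 ^ (2 * D) :=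
      (sum_le_card_nsmul _ _ 1 fun u _ => hsq _ (hf u)).trans (by simp)
    have e2 : ∑ v, h (j, v) ^ 2 ≤ 2 ^ (2 * D) :=
      (sum_le_card_nsmul _ _ 1 fun u _ => hsq _ (hh _)).trans (by simp)
    have e3 : ∑ u : Fin (2 * D) → ZMod 2, (∑ v, h (j, v) * H75.chi (∑ k, u k * v k)) ^ 2 =
        2 ^ (2 * D) * ∑ v, h (j, v) ^ 2 := by
      have e4 : ∀ u v v' : Fin (2 * D) → ZMod 2, h (j, v) * H75.chi (∑ k, u k * v k) *
          (h (j, v') * H75.chi (∑ k, u k * v' k)) =
          h (j, v) * h (j, v') * H75.chi (∑ k, u k * (v k + v' k)) := fun u v v' => by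
        simp only [mul_add, sum_add_distrib, H9.HardB.chi_add]
        ring
      simp only [sq, sum_mul_sum, e4]
      rw [sum_comm, mul_sum]
      refine sum_congr rfl fun v _ => ?_
      rw [sum_comm]
      simp only [← mul_sum]
      rw [sum_congr rfl fun v' _ => by rw [H9.HardB.sum_chi_dot fun k => v k + v' k],
        sum_eq_single v]
      · rw [if_pos (show (fun k => v k + v k) = 0 from
          funext fun k => CharTwo.add_self_eq_zero _), mul_comm]
      · exact fun v' _ h => by
          rw [if_neg fun e : (fun k => v k + v' k) = 0 =>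
            h (funext fun k => (CharTwo.add_eq_zero.1 (congrFun e k)).symm), mul_zero]
      · simp
    rw [e3]
    calc _ ≤ (2 : ℝ) ^ (2 * D) * (2 ^ (2 * D) * 2 ^ (2 * D)) := by gcongr
      _ = _ := by ring
  simp only [Fintype.sum_prod_type, sg, ite_not, mul_assoc]
  rw [sum_comm]
  refine (abs_sum_le_sum_abs _ _).trans ((sum_le_card_nsmul _ _ _ fun j _ =>
    le_of_eq_of_le (by simp only [mul_sum, H75.chi]) (h1 j)).trans (le_of_eq ?_))
  simp only [card_univ, nsmul_eq_mul, Fintype.card_prod, Fintype.card_fun, ZMod.card,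
    Fintype.card_fin]
  push_cast
  field_simp
  ring

end Pool.Agent.MP_6b3410_lc.R5
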