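import Mathlib
import Pool.Agent.MP_6b3410_lc.R5.Count
import Pool.Agent.MP_6b3410_lc.R5.Comb

/-!
A small family of induced matchings that meets every dense set of edges many times.
-/

namespace Pool.Agent.MP_6b3410_lc.R5

open Classical Finset

/-- the allowed pairs -/
noncomputable def alw {U U' : Type} [Fintype U] [Fintype U'] (al : U → U' → Prop) :
    Finset (U × U') := univ.filter fun p => al p.1 p.2

lemma mem_alw {U U' : Type} [Fintype U] [Fintype U'] {al : U → U' → Prop} {p : U × U'} :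
    p ∈ alw al ↔ al p.1 p.2 := by simp [alw]

lemma mem_mat {U U' : Type} [Fintype U] [Fintype U'] {al : U → U' → Prop} {t : ℕ}
    {S : Fin t → Finset (U × U')} {w : (Fin t → U) × (Fin t → U')} : w ∈ mat al S ↔
      (∀ i, (w.1 i, w.2 i) ∈ S i) ∧ ∀ i j, i ≠ j → ¬ al (w.1 i) (w.2 j) := by
  rw [mat, mem_filter]
  exact and_iff_right (mem_univ _)

lemma dens {U U' : Type} [Fintype U] [Fintype U'] {al : U → U' → Prop} {ε : ℝ}
    (hg : Cut (sg al) ε) (hε : ε ≤ 1 / 2) :
    Fintype.card U * Fintype.card U' ≤ 4 * (alw al).card := by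
  have h1 := (abs_le.1 (hg (fun _ => 1) (fun _ => 1) (by simp) (by simp))).2
  have h2 : ∑ u, ∑ u', 1 * 1 * sg al u u' =
      Fintype.card U * Fintype.card U' - 2 * ((alw al).card : ℝ) := by
    have : ∀ u u', 1 * 1 * sg al u u' = 1 - 2 * (if al u u' then (1 : ℝ) else 0) := fun u u' => by
      unfold sg
      split_ifs <;> norm_num
    simp only [this, alw, card_filter, Fintype.sum_prod_type, sum_sub_distrib, ← mul_sum]
    simp
  have h3 : (0 : ℝ) ≤ Fintype.card U * Fintype.card U' := by positivity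
  have h4 : (Fintype.card U * Fintype.card U' : ℝ) ≤ 4 * (alw al).card := by nlinarith
  exact_mod_cast h4

lemma prod_le_half {t t1 A : ℕ} (hA : 0 < A) (s : Fin t → ℕ) (h : ∑ i, s i + t1 * A ≤ t * A) :
    ∏ i, (s i : ℝ) ≤ (A : ℝ) ^ t * (1 / 2) ^ t1 := by
  have hA' : (0 : ℝ) < A := by exact_mod_cast hA
  have h' : ∑ i, (s i : ℝ) + t1 * A ≤ t * A := by exact_mod_cast h
  calc _ ≤ ∏ i, (A : ℝ) * Real.exp (s i / A - 1) := by
        refine prod_le_prod (fun _ _ => by positivity) fun i _ => ?_
        rw [← div_le_iff₀' hA']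
        linarith [Real.add_one_le_exp ((s i : ℝ) / A - 1)]
    _ = (A : ℝ) ^ t * Real.exp ((∑ i, (s i : ℝ)) / A - t) := by
        rw [prod_mul_distrib, ← Real.exp_sum, sum_sub_distrib, sum_div]
        simp
    _ ≤ (A : ℝ) ^ t * Real.exp (-1) ^ t1 := by
        rw [← Real.exp_nat_mul]
        gcongr
        rw [sub_le_iff_le_add, div_le_iff₀ hA']
        linarith
    _ ≤ _ := by
        gcongr
        rw [Real.exp_neg, ← one_div]
        exact one_div_le_one_div_of_le (by norm_num) (by linarith [Real.add_one_le_exp 1])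

theorem blk {U U0 J Λ : Type} [Fintype U] [Fintype U0] [Fintype J] [Fintype Λ] [Nonempty U]
    [Nonempty U0] [Nonempty J] {al : U → J × U0 → Prop} {ε : ℝ} (hg : Cut (sg al) ε)
    (hε0 : 0 ≤ ε) (H t1 m t : ℕ) (hH : 0 < H) (ht1 : 0 < t1) (ht : t = 2 * H * t1)
    (hε : ε * 2 ^ (t * t + 5 * t) ≤ 1) (hJ : 8 * H * m ≤ Fintype.card J)
    (hΛ : 2 * (t * (Fintype.card U * Fintype.card (J × U0))) +
      (3 + Fintype.card J) * Fintype.card Λ < t1 * Fintype.card Λ) :
    ∃ (x : Λ → Fin t → U) (y : Λ → Fin t → J × U0), (∀ ω i j, al (x ω i) (y ω j) ↔ i = j) ∧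
      ∀ S : Bool → Fin t → Finset (U × J × U0), (∀ s i, S s i ⊆ alw al) →
        (∀ s, t * (alw al).card ≤ H * ∑ i, (S s i).card) →
        ∃ ω, ∀ s, m ≤ ((univ.filter fun i => (x ω i, y ω i) ∈ S s i).image
          fun i => (y ω i).1).card := by
  have ht2 : t1 ≤ t := by nlinarith
  have hε1 : ε ≤ 1 / 2 := by
    have : (2 : ℝ) ^ 1 ≤ 2 ^ (t * t + 5 * t) := pow_le_pow_right₀ (by norm_num) (by nlinarith)
    nlinarith
  have hA := dens hg hε1
  have hA0 : 0 < (alw al).card := by
    have := Nat.mul_pos (Fintype.card_pos (α := U)) (Fintype.card_pos (α := J × U0))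
    omega
  obtain ⟨c, hc, hcl⟩ := cl hg hε0 t
  set A := (alw al).card with hAdef
  have hc0 : 0 < c := lt_of_lt_of_le (by positivity) hc
  set P : ℝ := c * (A : ℝ) ^ t with hP
  have hP0 : 0 < P := by positivity
  have herr : t * t * (ε * ((Fintype.card U : ℝ) * Fintype.card (J × U0)) ^ t) ≤
      P * (1 / 2) ^ t1 := by
    have e1 : (t : ℝ) ≤ 2 ^ t := by exact_mod_cast Nat.lt_two_pow_self.le
    have e2 : (Fintype.card U : ℝ) * Fintype.card (J × U0) ≤ 4 * A := by exact_mod_cast hA
    have e3 : ε ≤ 1 / 2 ^ (t * t + 5 * t) := (le_div_iff₀ (by positivity)).2 hε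
    calc _ ≤ (2 : ℝ) ^ t * 2 ^ t * (1 / 2 ^ (t * t + 5 * t) * (4 * A) ^ t) := by gcongr
      _ = (1 / 2) ^ (t * t) * (A : ℝ) ^ t * (1 / 2) ^ t := by
        rw [mul_pow, show (4 : ℝ) = 2 ^ 2 by norm_num, ← pow_mul, one_div_pow, one_div_pow]
        field_simp
        ring
      _ ≤ _ := by
        have := pow_le_pow_of_le_one (a := (1 / 2 : ℝ)) (by norm_num) (by norm_num) ht2
        rw [hP]
        gcongr
  have hh : (1 / 2 : ℝ) ^ t1 ≤ 1 / 2 := pow_le_of_le_one (by norm_num) (by norm_num) ht1.ne'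
  have hΩ : P / 2 ≤ (mat al fun _ : Fin t => alw al).card := by
    have := (abs_le.1 (hcl fun _ => alw al)).1
    simp only [prod_const, card_univ, Fintype.card_fin] at this
    nlinarith
  obtain ⟨w, hw, hw'⟩ := sub (Λ := Λ) (mat al fun _ : Fin t => alw al)
    (card_pos.1 (by exact_mod_cast (half_pos hP0).trans_le hΩ))
    (fun (S : Bool → Fin t → Finset (U × J × U0)) w => ((∀ s i, S s i ⊆ alw al) ∧
      ∀ s, t * A ≤ H * ∑ i, (S s i).card) ∧
      ∃ s, ((univ.filter fun i => (w.1 i, w.2 i) ∈ S s i).image fun i => (w.2 i).1).card < m)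
    (2 ^ (3 + Fintype.card J) / 2 ^ t1) (by
      intro S B hB1 hB
      rcases B.eq_empty_or_nonempty with rfl | ⟨w0, hw0⟩
      · simp only [card_empty, Nat.cast_zero]
        positivity
      obtain ⟨hS1, hS2⟩ := (hB w0 hw0).1
      let F : Bool × Finset J → Finset ((Fin t → U) × (Fin t → J × U0)) := fun a =>
        B.filter fun w => a.2.card < m ∧ ∀ i, (w.1 i, w.2 i) ∈ S a.1 i → (w.2 i).1 ∈ a.2
      have e1 : B ⊆ univ.biUnion F := fun w hw => by
        obtain ⟨s, hs⟩ := (hB w hw).2
        exact mem_biUnion.2 ⟨(s, _), mem_univ _, mem_filter.2 ⟨hw, hs, fun i hi =>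
          mem_image.2 ⟨i, mem_filter.2 ⟨mem_univ _, hi⟩, rfl⟩⟩⟩
      have e2 : ∀ a, ((F a).card : ℝ) ≤ 2 * (P * (1 / 2) ^ t1) := by
        rintro ⟨s, X⟩
        by_cases hX : X.card < m
        swap
        · simp only [F, hX, false_and, filter_false, card_empty, Nat.cast_zero]
          positivity
        let S' : Fin t → Finset (U × J × U0) := fun i =>
          (alw al).filter fun p => p ∈ S s i → p.2.1 ∈ X
        have e3 : F (s, X) ⊆ mat al S' := fun w hw => by
          have h1 := mem_filter.1 hw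
          have h2 := mem_mat.1 (hB1 h1.1)
          exact mem_mat.2 ⟨fun i => mem_filter.2 ⟨h2.1 i, h1.2.2 i⟩, h2.2⟩
        have e4 : ∀ i, (S' i).card + (S s i).card ≤
            A + Fintype.card U * (X.card * Fintype.card U0) := fun i => by
          rw [← card_union_add_card_inter]
          refine Nat.add_le_add (card_le_card (union_subset (filter_subset _ _) (hS1 s i)))
            ((card_le_card (t := univ ×ˢ (X ×ˢ univ)) fun p hp => ?_).trans (by simp))
          have := mem_inter.1 hp
          simpa using (mem_filter.1 this.1).2 this.2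
        have e5 := sum_le_card_nsmul univ _ _ fun i _ => e4 i
        rw [sum_add_distrib, card_univ, Fintype.card_fin, smul_eq_mul] at e5
        have e6 := prod_le_half (t1 := t1) hA0 (fun i => (S' i).card) (by
          have f1 := hS2 s
          have f2 : 8 * H * X.card ≤ Fintype.card J := le_trans (by gcongr) hJ
          have f3 := Nat.mul_le_mul_left (t * Fintype.card U * Fintype.card U0) f2
          have f4 := Nat.mul_le_mul_left t hA
          have f5 := Nat.mul_le_mul_left H e5
          rw [Fintype.card_prod] at f4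
          refine Nat.le_of_mul_le_mul_left ?_ hH
          have f6 : t * A = 2 * (H * (t1 * A)) := by rw [ht]; ring
          nlinarith)
        have e7 := (abs_le.1 (hcl S')).2
        have e8 : ((F (s, X)).card : ℝ) ≤ (mat al S').card := by exact_mod_cast card_le_card e3
        have e9 := mul_le_mul_of_nonneg_left e6 hc0.le
        rw [← mul_assoc] at e9
        linarith
      calc _ ≤ ∑ a, ((F a).card : ℝ) := by exact_mod_cast (card_le_card e1).trans card_biUnion_le
        _ ≤ _ := sum_le_card_nsmul _ _ _ fun a _ => e2 a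
        _ = 2 ^ (3 + Fintype.card J) / 2 ^ t1 * (P / 2) := by
          simp only [card_univ, Fintype.card_prod, Fintype.card_bool, Fintype.card_finset,
            nsmul_eq_mul, one_div_pow]
          push_cast
          field_simp
          ring
        _ ≤ _ := by gcongr)
    (by
      simp only [Fintype.card_fun, Fintype.card_finset, Fintype.card_fin, Fintype.card_bool]
      rw [div_pow, ← mul_div_assoc, div_lt_one (by positivity), Fintype.card_prod U]
      have e3 := Nat.pow_lt_pow_right (a := 2) (by norm_num) hΛ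
      rw [← pow_mul, ← pow_mul, ← pow_mul, ← pow_mul]
      exact_mod_cast lt_of_eq_of_lt (by rw [← pow_add]; congr 1; ring) e3)
  refine ⟨fun ω => (w ω).1, fun ω => (w ω).2, fun ω i j => ?_, fun S h1 h2 => ?_⟩
  · have := mem_mat.1 (hw ω)
    exact ⟨fun h => by_contra fun e => this.2 i j e h, fun e => e ▸ mem_alw.1 (this.1 i)⟩
  · obtain ⟨ω, hω⟩ := hw' S
    exact ⟨ω, fun s => not_lt.1 fun h => hω ⟨⟨h1, h2⟩, s, h⟩⟩

end Pool.Agent.MP_6b3410_lc.R5
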