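import Mathlib
import Pool.Agent.MP_6b3410_lc.H5.DHam

/-!
A directed graph whose Hamilton cycles run through a chain of slots, each in one of two states,
and then make `τ` lookups (the rows are those of `H19.Chain`).
-/

namespace Pool.Agent.MP_6b3410_lc.R5

open Classical Pool.Agent.MP_6b3410_lc.H5

/-- vertices -/
inductive Vx (M : ℕ) (K : Type) (τ : ℕ) : Type
  | E (j : Fin M) (b : Bool) : Vx M K τ
  | Mi (j : Fin M) : Vx M K τ
  | C (c : K) : Vx M K τ
  | P (i : Fin (τ + 1)) : Vx M K τ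

def vxEquiv (M : ℕ) (K : Type) (τ : ℕ) :
    ((Fin M × Bool) ⊕ Fin M ⊕ K ⊕ Fin (τ + 1)) ≃ Vx M K τ where
  toFun
    | Sum.inl x => Vx.E x.1 x.2
    | Sum.inr (Sum.inl j) => Vx.Mi j
    | Sum.inr (Sum.inr (Sum.inl c)) => Vx.C c
    | Sum.inr (Sum.inr (Sum.inr i)) => Vx.P i
  invFun
    | Vx.E j b => Sum.inl (j, b)
    | Vx.Mi j => Sum.inr (Sum.inl j)
    | Vx.C c => Sum.inr (Sum.inr (Sum.inl c))
    | Vx.P i => Sum.inr (Sum.inr (Sum.inr i))
  left_inv := by rintro (x | j | c | i) <;> rfl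
  right_inv := by rintro (_ | _ | _ | _) <;> rfl

instance (M : ℕ) (K : Type) (τ : ℕ) [Fintype K] : Fintype (Vx M K τ) :=
  Fintype.ofEquiv _ (vxEquiv M K τ)

lemma card_vx (M : ℕ) (K : Type) (τ : ℕ) [Fintype K] :
    Fintype.card (Vx M K τ) = 3 * M + Fintype.card K + τ + 1 := by
  rw [← Fintype.card_congr (vxEquiv M K τ)]
  simp
  ring

variable {M : ℕ} {K : Type} (τ : ℕ) (cls : Fin M → Option K) (pol : Fin M → Bool)
  (T : Fin M → Bool → Bool → Prop) (A B : K → Prop) (D : K → K → Prop)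

/-- arcs -/
def Arc : Vx M K τ → Vx M K τ → Prop
  | Vx.E j _, Vx.Mi j' => j = j'
  | Vx.Mi j, Vx.E j' _ => j = j'
  | Vx.E j b, Vx.E j' b' => j.val + 1 = j'.val ∧ T j b b'
  | Vx.E j b, Vx.C c => cls j = some c ∧ b = pol j
  | Vx.C c, Vx.Mi j => cls j = some c
  | Vx.E j _, Vx.P i => j.val + 1 = M ∧ i.val = 0
  | Vx.P i, Vx.E j _ => i.val = τ ∧ j.val = 0
  | Vx.P i, Vx.C c => i.val < τ ∧ A c
  | Vx.C c, Vx.C c' => A c ∧ B c' ∧ D c c'
  | Vx.C c, Vx.P i => B c ∧ i.val ≠ 0
  | _, _ => False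

/-- the condition that the Hamilton cycles read off -/
def Good : Prop :=
  ∃ st : Fin M → Bool, (∀ j j' : Fin M, j.val + 1 = j'.val → T j (!st j) (st j')) ∧
    ∃ a b : Fin τ → K, Function.Injective a ∧ Function.Injective b ∧
      (∀ i, A (a i) ∧ B (b i) ∧ D (a i) (b i)) ∧
      ∀ c, (∀ i, a i ≠ c) → (∀ i, b i ≠ c) → ∃ j, cls j = some c ∧ st j = pol j

variable {τ cls pol T A B D}

theorem chain_sound [Fintype K] (hM : 0 < M) (hAB : ∀ c, A c → ¬ B c)
    (h : DHam (Arc τ cls pol T A B D)) : Good τ cls pol T A B D := by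
  obtain ⟨σ, hσ⟩ := h
  have hsurj := Finite.injective_iff_surjective.1 hσ.inj
  have h2 := hσ.no_two (Vx.E ⟨0, hM⟩ true) (Vx.E ⟨0, hM⟩ false) (Vx.Mi ⟨0, hM⟩)
    (by simp) (by simp) (by simp)
  have h3 := hσ.no_three (Vx.E ⟨0, hM⟩ true) (Vx.E ⟨0, hM⟩ false) (Vx.Mi ⟨0, hM⟩) (Vx.P 0)
    (by simp) (by simp) (by simp) (by simp) (by simp) (by simp)
  have hMi : ∀ j, ∃ b, σ (Vx.Mi j) = Vx.E j (!b) := by
    intro j
    have := hσ.arc (Vx.Mi j)
    rcases hv : σ (Vx.Mi j) with ⟨j', b⟩ | _ | _ | _ <;> rw [hv] at this <;>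
      simp only [Arc] at this
    exact ⟨!b, by rw [this, Bool.not_not]⟩
  choose st hst using hMi
  -- forward moves
  let Fw : Fin M → Vx M K τ → Prop := fun j v =>
    (∃ j' b', v = Vx.E j' b' ∧ j.val + 1 = j'.val) ∨ (v = Vx.P 0 ∧ j.val + 1 = M)
  have hout : ∀ j b, σ (Vx.E j b) = Vx.Mi j ∨ Fw j (σ (Vx.E j b)) ∨
      (∃ c, σ (Vx.E j b) = Vx.C c ∧ cls j = some c ∧ b = pol j) := by
    intro j b
    have := hσ.arc (Vx.E j b)
    rcases hv : σ (Vx.E j b) with ⟨j', b'⟩ | j' | c | i <;> rw [hv] at this <;>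
      simp only [Arc] at this
    · exact Or.inr (Or.inl (Or.inl ⟨j', b', rfl, this.1⟩))
    · exact Or.inl (by rw [this])
    · exact Or.inr (Or.inr ⟨c, rfl, this⟩)
    · exact Or.inr (Or.inl (Or.inr ⟨by rw [show i = 0 from Fin.ext this.2], this.1⟩))
  have ha : ∀ j b, Fw j (σ (Vx.E j b)) → ¬ Fw j (σ (Vx.E j (!b))) := by
    rintro j b (⟨j1, b1, e1, e2⟩ | ⟨e1, e2⟩) (⟨j2, b2, e3, e4⟩ | ⟨e3, e4⟩)
    · obtain rfl : j1 = j2 := Fin.ext (by omega)
      by_cases hb : b1 = b2
      · have := hσ.inj (e1.trans (hb ▸ e3).symm)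
        simp at this
      · by_cases hb1 : b1 = !st j1
        · have := hσ.inj (e1.trans (hb1 ▸ hst j1).symm)
          simp at this
        · have hb2 : b2 = !st j1 := by
            revert hb hb1; cases b1 <;> cases b2 <;> cases st j1 <;> simp
          have := hσ.inj (e3.trans (hb2 ▸ hst j1).symm)
          simp at this
    · have := j1.2; omega
    · have := j2.2; omega
    · have := hσ.inj (e1.trans e3.symm)
      simp at this
  have hb : ∀ j, σ (Vx.E j (st j)) = Vx.Mi j ∨ ∃ c, cls j = some c ∧ σ (Vx.C c) = Vx.Mi j := by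
    intro j
    obtain ⟨u, hu⟩ := hsurj (Vx.Mi j)
    have := hσ.arc u
    rw [hu] at this
    rcases u with ⟨j', b'⟩ | j' | c | i <;> simp only [Arc] at this
    · subst this
      by_cases hb : b' = st j'
      · exact Or.inl (hb ▸ hu)
      · exfalso
        have hb' : b' = !st j' := by revert hb; cases b' <;> cases st j' <;> simp
        exact h2 (Vx.Mi j') (by rw [hst, ← hb', hu])
    · exact Or.inr ⟨c, this, hu⟩
  have hc : ∀ j, ∃ b, Fw j (σ (Vx.E j b)) := by
    intro j
    by_cases hj : j.val + 1 < M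
    · obtain ⟨u, hu⟩ := hsurj (Vx.E ⟨j.val + 1, hj⟩ (st ⟨j.val + 1, hj⟩))
      have := hσ.arc u
      rw [hu] at this
      rcases u with ⟨j', b'⟩ | j' | c | i <;> simp only [Arc] at this
      · obtain rfl : j' = j := Fin.ext (by omega)
        exact ⟨b', Or.inl ⟨_, _, hu, rfl⟩⟩
      · subst this
        rw [hst] at hu
        simp at hu
      · omega
    · obtain ⟨u, hu⟩ := hsurj (Vx.P 0)
      have := hσ.arc u
      rw [hu] at this
      rcases u with ⟨j', b'⟩ | j' | c | i <;> simp only [Arc] at this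
      · have := j.2
        obtain rfl : j' = j := Fin.ext (by omega)
        exact ⟨b', Or.inr ⟨hu, by omega⟩⟩
      · simp at this
  have hnF1 : ∀ j j', ¬ Fw j (Vx.Mi j') := by
    rintro j j' (⟨_, _, h, _⟩ | ⟨h, _⟩) <;> simp at h
  have hnF2 : ∀ j c, ¬ Fw j (Vx.C c) := by
    rintro j j' (⟨_, _, h, _⟩ | ⟨h, _⟩) <;> simp at h
  have hd : ∀ j, Fw j (σ (Vx.E j (!st j))) := by
    intro j
    rcases hout j (!st j) with h | h | ⟨c, h⟩
    · exact absurd (by rw [hst, h]) (h2 (Vx.Mi j))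
    · exact h
    · exfalso
      obtain ⟨b, hb'⟩ := hc j
      have e1 : b = st j := by
        by_contra hne
        have : b = !st j := by revert hne; cases b <;> cases st j <;> simp
        rw [this, h.1] at hb'
        exact hnF2 _ _ hb'
      rw [e1] at hb'
      rcases hb j with h' | ⟨c', h', h''⟩
      · rw [h'] at hb'; exact hnF1 _ _ hb'
      · obtain rfl : c = c' := Option.some.inj (h.2.1.symm.trans h')
        exact h3 (Vx.Mi j) (by rw [hst, h.1, h''])
  have he : ∀ j, σ (Vx.E j (st j)) = Vx.Mi j ∨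
      (∃ c, σ (Vx.E j (st j)) = Vx.C c ∧ cls j = some c ∧ st j = pol j) := by
    intro j
    rcases hout j (st j) with h | h | h
    · exact Or.inl h
    · exact absurd (hd j) (ha j _ h)
    · exact Or.inr h
  have hin : ∀ j b c, σ (Vx.E j b) = Vx.C c →
      cls j = some c ∧ st j = pol j ∧ σ (Vx.C c) = Vx.Mi j := by
    intro j b c h
    have e1 : b = st j := by
      by_contra hne
      have : b = !st j := by revert hne; cases b <;> cases st j <;> simp
      have h' := hd j
      rw [← this, h] at h'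
      exact hnF2 _ _ h'
    subst e1
    rcases he j with h' | ⟨c', h'⟩
    · rw [h] at h'; simp at h'
    · obtain rfl : c' = c := by
        have := h'.1.symm.trans h
        simpa using this
      refine ⟨h'.2.1, h'.2.2, ?_⟩
      rcases hb j with h'' | ⟨c'', h1, h''⟩
      · rw [h] at h''; simp at h''
      · obtain rfl : c' = c'' := Option.some.inj (h'.2.1.symm.trans h1)
        exact h''
  have hback : ∀ j c, σ (Vx.C c) = Vx.Mi j → σ (Vx.E j (st j)) = Vx.C c := by
    intro j c h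
    have h1 := hσ.arc (Vx.C c)
    rw [h] at h1
    simp only [Arc] at h1
    rcases he j with h' | ⟨c', h'⟩
    · have := hσ.inj (h.trans h'.symm)
      simp at this
    · obtain rfl : c' = c := Option.some.inj (h'.2.1.symm.trans h1)
      exact h'.1
  refine ⟨st, fun j j' h => ?_, ?_⟩
  · rcases hd j with ⟨j1, b1, e1, e2⟩ | ⟨-, e2⟩
    · obtain rfl : j1 = j' := Fin.ext (by omega)
      have := hσ.arc (Vx.E j (!st j))
      rw [e1] at this
      simp only [Arc] at this
      by_cases hb1 : b1 = st j1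
      · exact hb1 ▸ this.2
      · have e4 : b1 = !st j1 := by revert hb1; cases b1 <;> cases st j1 <;> simp
        have := hσ.inj (e1.trans (e4 ▸ hst j1).symm)
        simp at this
    · have := j'.2; omega
  · have ha' : ∀ i : Fin τ, ∃ a, σ (Vx.P i.castSucc) = Vx.C a ∧ A a := by
      intro i
      have := hσ.arc (Vx.P i.castSucc)
      rcases hv : σ (Vx.P i.castSucc) with ⟨j', b'⟩ | j' | c | i' <;> rw [hv] at this <;>
        simp only [Arc] at this
      · have h1 := i.2
        have h2 := this.1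
        simp only [Fin.val_castSucc] at h2
        omega
      · exact ⟨c, rfl, this.2⟩
    choose a ea hA using ha'
    have hb' : ∀ i : Fin τ, ∃ b, σ (Vx.C (a i)) = Vx.C b ∧ B b ∧ D (a i) b := by
      intro i
      have := hσ.arc (Vx.C (a i))
      rcases hv : σ (Vx.C (a i)) with ⟨j', b'⟩ | j' | c | i' <;> rw [hv] at this <;>
        simp only [Arc] at this
      · have := hσ.inj ((hback _ _ hv).trans (ea i).symm)
        simp at this
      · exact ⟨c, rfl, this.2⟩
      · exact absurd this.1 (hAB _ (hA i))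
    choose b eb hB hD using hb'
    have hai : Function.Injective a := fun i i' h => by
      have := hσ.inj ((ea i).trans (h ▸ (ea i').symm))
      simpa using this
    refine ⟨a, b, hai, fun i i' h => hai ?_, fun i => ⟨hA i, hB i, hD i⟩, fun c hca hcb => ?_⟩
    · have := hσ.inj ((eb i).trans (h ▸ (eb i').symm))
      simpa using this
    have hP : ∀ (i : Fin (τ + 1)) c, σ (Vx.P i) = Vx.C c → i.val < τ → ∃ i', a i' = c := by
      intro i c h hi
      refine ⟨⟨i.val, hi⟩, ?_⟩
      have := ea ⟨i.val, hi⟩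
      rw [show (⟨i.val, hi⟩ : Fin τ).castSucc = i from rfl, h] at this
      simpa using this.symm
    obtain ⟨u, hu⟩ := hsurj (Vx.C c)
    have := hσ.arc u
    rw [hu] at this
    rcases u with ⟨j', b'⟩ | j' | c' | i <;> simp only [Arc] at this
    · exact ⟨j', (hin _ _ _ hu).1, (hin _ _ _ hu).2.1⟩
    · exfalso
      obtain ⟨u', hu'⟩ := hsurj (Vx.C c')
      have h4 := hσ.arc u'
      rw [hu'] at h4
      rcases u' with ⟨j'', b''⟩ | j'' | c'' | i <;> simp only [Arc] at h4
      · have := (hin _ _ _ hu').2.2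
        rw [hu] at this
        simp at this
      · exact hAB _ this.1 h4.2.1
      · obtain ⟨i', rfl⟩ := hP _ _ hu' h4.1
        rw [eb] at hu
        exact hcb i' (by simpa using hu)
    · obtain ⟨i', hi'⟩ := hP _ _ hu this.1
      exact absurd hi' (hca i')

theorem chain_complete [Fintype K] (hM : 0 < M) (hAB : ∀ c, A c → ¬ B c)
    (h : Good τ cls pol T A B D) : DHam (Arc τ cls pol T A B D) := by
  obtain ⟨st, hT, a, b, hai, hbi, hABD, hcl⟩ := h
  have hab : ∀ i i', a i ≠ b i' := fun i i' h => hAB _ (hABD i).1 (h ▸ (hABD i').2.1)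
  let ch : K → Prop := fun c => (∃ i, a i = c) ∨ ∃ i, b i = c
  have hex : ∀ c : K, ∃ j : Fin M, ¬ ch c → cls j = some c ∧ st j = pol j := by
    intro c
    by_cases hc : ch c
    · exact ⟨⟨0, hM⟩, fun h => absurd hc h⟩
    · obtain ⟨j, hj⟩ := hcl c (fun i h => hc (Or.inl ⟨i, h⟩)) (fun i h => hc (Or.inr ⟨i, h⟩))
      exact ⟨j, fun _ => hj⟩
  choose slot hslot using hex
  let det : Fin M → Prop := fun j => ∃ c, ¬ ch c ∧ slot c = j
  have hdet : ∀ c (h : det (slot c)), ¬ ch c → h.choose = c := fun c h hc => by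
    have h1 := (hslot _ h.choose_spec.1).1
    rw [h.choose_spec.2, (hslot c hc).1] at h1
    exact (Option.some.inj h1).symm
  have hca : ∀ i (h : ∃ i', a i' = a i), h.choose = i := fun i h => hai h.choose_spec
  have hcb : ∀ i (h : ∃ i', b i' = b i), h.choose = i := fun i h => hbi h.choose_spec
  have hnb : ∀ i, ¬ ∃ i', a i' = b i := fun i ⟨i', h⟩ => hab _ _ h
  let σ : Vx M K τ → Vx M K τ
    | Vx.E j b => if b = st j then (if h : det j then Vx.C h.choose else Vx.Mi j)
        else (if h : j.val + 1 < M then Vx.E ⟨j.val + 1, h⟩ (st ⟨j.val + 1, h⟩) else Vx.P 0)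
    | Vx.Mi j => Vx.E j (!st j)
    | Vx.C c => if h : ∃ i, a i = c then Vx.C (b h.choose) else
        if h : ∃ i, b i = c then Vx.P h.choose.succ else Vx.Mi (slot c)
    | Vx.P i => if h : i.val < τ then Vx.C (a ⟨i.val, h⟩) else Vx.E ⟨0, hM⟩ (st ⟨0, hM⟩)
  let ρ : Vx M K τ → ℕ
    | Vx.E j b => if b = st j then 4 * j.val else 4 * j.val + 3
    | Vx.Mi j => 4 * j.val + 2
    | Vx.C c => if h : ∃ i, a i = c then 4 * M + 3 * h.choose.val + 1 else
        if h : ∃ i, b i = c then 4 * M + 3 * h.choose.val + 2 else 4 * (slot c).val + 1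
    | Vx.P i => 4 * M + 3 * i.val
  have sa : ∀ i, σ (Vx.C (a i)) = Vx.C (b i) := fun i => by
    simp only [σ]; rw [dif_pos ⟨i, rfl⟩, hca]
  have sb : ∀ i, σ (Vx.C (b i)) = Vx.P i.succ := fun i => by
    simp only [σ]; rw [dif_neg (hnb i), dif_pos ⟨i, rfl⟩, hcb]
  have sc : ∀ c, ¬ ch c → σ (Vx.C c) = Vx.Mi (slot c) := fun c hc => by
    simp only [σ]; rw [dif_neg fun h => hc (Or.inl h), dif_neg fun h => hc (Or.inr h)]
  have ra : ∀ i, ρ (Vx.C (a i)) = 4 * M + 3 * i.val + 1 := fun i => by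
    simp only [ρ]; rw [dif_pos ⟨i, rfl⟩, hca]
  have rb : ∀ i, ρ (Vx.C (b i)) = 4 * M + 3 * i.val + 2 := fun i => by
    simp only [ρ]; rw [dif_neg (hnb i), dif_pos ⟨i, rfl⟩, hcb]
  have rc : ∀ c, ¬ ch c → ρ (Vx.C c) = 4 * (slot c).val + 1 := fun c hc => by
    simp only [ρ]; rw [dif_neg fun h => hc (Or.inl h), dif_neg fun h => hc (Or.inr h)]
  have hsurj : Function.Surjective σ := by
    rintro (⟨j, b⟩ | j | c | i)
    · by_cases hb : b = st j
      · rcases Nat.eq_zero_or_pos j.val with h0 | h0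
        · refine ⟨Vx.P (Fin.last τ), ?_⟩
          obtain rfl : j = ⟨0, hM⟩ := Fin.ext h0
          simp [σ, hb]
        · have := j.2
          refine ⟨Vx.E ⟨j.val - 1, by omega⟩ (!st ⟨j.val - 1, by omega⟩), ?_⟩
          have e1 : j.val - 1 + 1 = j.val := by omega
          simp [σ, hb, e1]
      · refine ⟨Vx.Mi j, ?_⟩
        have : b = !st j := by revert hb; cases b <;> cases st j <;> simp
        simp [σ, this]
    · by_cases hd : det j
      · obtain ⟨c, hc, rfl⟩ := hd
        exact ⟨Vx.C c, sc c hc⟩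
      · exact ⟨Vx.E j (st j), by simp [σ, hd]⟩
    · by_cases hc : ch c
      · rcases hc with ⟨i, rfl⟩ | ⟨i, rfl⟩
        · exact ⟨Vx.P i.castSucc, by simp [σ]⟩
        · exact ⟨Vx.C (a i), sa i⟩
      · refine ⟨Vx.E (slot c) (st (slot c)), ?_⟩
        have hd : det (slot c) := ⟨c, hc, rfl⟩
        simp only [σ, if_true, dif_pos hd, hdet c hd hc]
    · refine Fin.cases ?_ (fun i => ⟨Vx.C (b i), sb i⟩) i
      refine ⟨Vx.E ⟨M - 1, by omega⟩ (!st ⟨M - 1, by omega⟩), ?_⟩
      have e1 : ¬ (M - 1 + 1 < M) := by omega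
      simp [σ, e1]
  refine ⟨σ, Cyc.of_rank (Finite.injective_iff_surjective.2 hsurj) ?_ ρ (Vx.P (Fin.last τ)) ?_⟩
  · rintro (⟨j, b⟩ | j | c | i)
    · simp only [σ]
      split_ifs with h1 h2 h3
      · have := hslot _ h2.choose_spec.1
        rw [h2.choose_spec.2] at this
        exact ⟨this.1, h1.trans this.2⟩
      · rfl
      · refine ⟨rfl, ?_⟩
        have : b = !st j := by revert h1; cases b <;> cases st j <;> simp
        rw [this]
        exact hT _ _ rfl
      · have := j.2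
        exact ⟨by omega, rfl⟩
    · rfl
    · by_cases hc : ch c
      · rcases hc with ⟨i, rfl⟩ | ⟨i, rfl⟩
        · rw [sa]; exact hABD i
        · rw [sb]; exact ⟨(hABD i).2.1, by simp⟩
      · rw [sc c hc]; exact (hslot c hc).1
    · simp only [σ]
      split_ifs with h1
      · exact ⟨h1, (hABD _).1⟩
      · have := i.2
        exact ⟨by omega, rfl⟩
  · rintro (⟨j, b⟩ | j | c | i) hv
    · simp only [σ]
      split_ifs with h1 h2 h3
      · rw [rc _ h2.choose_spec.1, h2.choose_spec.2]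
        simp [ρ, h1]
      · simp [ρ, h1]
      · simp only [ρ, h1, if_true, if_false]; omega
      · have := j.2
        simp only [ρ, h1, if_false]; omega
    · simp [σ, ρ]
    · by_cases hc : ch c
      · rcases hc with ⟨i, rfl⟩ | ⟨i, rfl⟩
        · rw [sa, ra, rb]; omega
        · rw [sb, rb]; simp only [ρ, Fin.val_succ]; omega
      · rw [sc c hc, rc c hc]; simp [ρ]
    · simp only [σ]
      split_ifs with h1
      · rw [ra]; simp [ρ]
      · have := i.2
        exact absurd (congrArg Vx.P (Fin.ext (by simp only [Fin.val_last]; omega))) hv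

theorem chain_iff [Fintype K] (hM : 0 < M) (hAB : ∀ c, A c → ¬ B c) :
    DHam (Arc τ cls pol T A B D) ↔ Good τ cls pol T A B D :=
  ⟨chain_sound hM hAB, chain_complete hM hAB⟩

end Pool.Agent.MP_6b3410_lc.R5
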