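import Mathlib
import Pool.Agent.MP_6b3410_lc.R5.Blk
import Pool.Agent.MP_6b3410_lc.H75.Spec

/-!
Some check meets two dense sets of positions many times, so there is no large rectangle.
-/

namespace Pool.Agent.MP_6b3410_lc.R5

open Classical Finset Pool.Agent.MP_6b3410_lc.H75

/-- the family `p` has a member that hits a dense set in every group -/
def Hits {T Q L : Type} [Fintype Q] (G : Type) (g H : ℕ) (p : L → T → Q) : Prop :=
  ∀ ι : G × Fin g → T, Function.Injective ι → ∀ S : G × Fin g → Finset Q,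
    (∀ x, Fintype.card Q ≤ H * (S x).card) → ∃ l, ∀ γ, ∃ a, p l (ι (γ, a)) ∈ S (γ, a)

theorem hit {M t m g h : ℕ} {U U0 J Q Q' Λ L1 L2 : Type} [Fintype U] [Fintype U0] [Fintype J]
    [Fintype Q] [Fintype Q'] [Nonempty Q] [Nonempty Q'] {al : U → J × U0 → Prop}
    (x : Λ → Fin t → U) (y : Λ → Fin t → J × U0)
    (hB : ∀ S : Bool → Fin t → Finset (U × J × U0), (∀ s i, S s i ⊆ alw al) →
      (∀ s, t * (alw al).card ≤ 2 * h * ∑ i, (S s i).card) →
      ∃ ω, ∀ s, 2 * m * g * g ≤ ((univ.filter fun i => (x ω i, y ω i) ∈ S s i).image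
        fun i => (y ω i).1).card)
    (p : L1 → Fin t → Q) (hp : Hits ((Bool × Fin m) × Fin g) g (2 * (2 * h)) p)
    (p' : L2 → J → Q') (hp' : Hits (Bool × Fin m) g (2 * (2 * h)) p')
    (ps : Fin t × U × Q → (J × U0) × Q' → Fin M) (hsurj : ∀ k, ∃ a b, al a.2.1 b.1 ∧ ps a b = k)
    (hM : t * (alw al).card * (Fintype.card Q * Fintype.card Q') ≤ M)
    (D : Bool → Finset (Fin M)) (hD : ∀ s, M ≤ h * (D s).card) :
    ∃ ω l l', ∃ ι : Bool × Fin m → Fin t, ∀ γ, (∀ γ', ι γ = ι γ' → γ = γ') ∧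
      ps (ι γ, x ω (ι γ), p l (ι γ)) (y ω (ι γ), p' l' (y ω (ι γ)).1) ∈ D γ.1 := by
  let C : Bool → Fin t × U × J × U0 → Q → Finset Q' := fun s b q =>
    univ.filter fun q' => ps (b.1, b.2.1, q) (b.2.2, q') ∈ D s
  let f : Bool → Fin t × U × J × U0 → ℕ := fun s b => ∑ q, (C s b q).card
  have hQ := Fintype.card_pos (α := Q)
  have hQ' := Fintype.card_pos (α := Q')
  obtain ⟨ω, hω⟩ := hB (fun s i => (alw al).filter fun b =>
      Fintype.card Q * Fintype.card Q' ≤ 2 * h * f s (i, b)) (fun _ _ => filter_subset _ _) (by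
    intro s
    have e1 : D s ⊆ (univ ×ˢ alw al).biUnion fun b => univ.biUnion fun q =>
        (C s b q).image fun q' => ps (b.1, b.2.1, q) (b.2.2, q') := fun k hk => by
      obtain ⟨⟨i, u, q⟩, ⟨v, q'⟩, e, rfl⟩ := hsurj k
      exact mem_biUnion.2 ⟨(i, u, v), mem_product.2 ⟨mem_univ _, mem_alw.2 e⟩, mem_biUnion.2
        ⟨q, mem_univ _, mem_image.2 ⟨q', mem_filter.2 ⟨mem_univ _, hk⟩, rfl⟩⟩⟩
    have e2 : (D s).card ≤ ∑ b ∈ univ ×ˢ alw al, f s b := (card_le_card e1).trans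
      (card_biUnion_le.trans (sum_le_sum fun b _ => card_biUnion_le.trans
        (sum_le_sum fun q _ => card_image_le)))
    have e3 := fib (univ ×ˢ alw al) (f s) h _ (Nat.mul_pos hQ hQ')
      (fun b => sum_le_card_nsmul _ _ _ fun q _ => card_le_univ _) (by
        rw [card_product, card_univ, Fintype.card_fin]
        exact hM.trans ((hD s).trans (Nat.mul_le_mul_left h e2)))
    rw [card_product, card_univ, Fintype.card_fin] at e3
    refine e3.trans (Nat.mul_le_mul_left _ (le_of_eq ?_))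
    simp only [card_filter, sum_product])
  obtain ⟨ι2, h1, h2⟩ := hall (G := ((Bool × Fin m) × Fin g) × Fin g) (fun γ => γ.1.1.1) _ _
    fun s => le_of_eq_of_le (by simp) (hω s)
  let b : ((Bool × Fin m) × Fin g) × Fin g → Fin t × U × J × U0 := fun γ =>
    (ι2 γ, x ω (ι2 γ), y ω (ι2 γ))
  obtain ⟨l, hl⟩ := hp ι2 h2.of_comp (fun γ => univ.filter fun q =>
    Fintype.card Q' ≤ 2 * (2 * h) * (C γ.1.1.1 (b γ) q).card) fun γ =>
      fib univ (fun q => (C γ.1.1.1 (b γ) q).card) (2 * h) _ hQ' (fun q => card_le_univ _)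
        (mem_filter.1 (mem_filter.1 (h1 γ)).2).2
  choose a1 ha1 using hl
  obtain ⟨l', hl'⟩ := hp' (fun γ => (y ω (ι2 (γ, a1 γ))).1)
    (fun γ γ' e => congrArg Prod.fst (h2 e))
    (fun γ => C γ.1.1 (b (γ, a1 γ)) (p l (ι2 (γ, a1 γ)))) fun γ => (mem_filter.1 (ha1 γ)).2
  choose a0 ha0 using hl'
  exact ⟨ω, l, l', fun γ => ι2 ((γ, a0 γ), a1 (γ, a0 γ)), fun γ => ⟨fun γ' e =>
    congrArg (fun z => z.1.1) (h2.of_comp e), (mem_filter.1 (ha0 γ)).2⟩⟩

theorem no_rect {M t m h : ℕ} {C : Type} (pos : C → Fin t → Fin M)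
    (hinj : ∀ c, Function.Injective (pos c))
    (hpos : ∀ D : Bool → Finset (Fin M), (∀ s, M ≤ h * (D s).card) →
      ∃ c, ∃ ι : Bool × Fin m → Fin t, ∀ γ, (∀ γ', ι γ = ι γ' → γ = γ') ∧ pos c (ι γ) ∈ D γ.1)
    (hh : 0 < h) (φ : (Fin t → Bool) → Bool)
    (hφ : ∀ (F : Finset (Fin t)) (u v : (Fin m → Bool) → Fin t → Bool) (β : Bool),
      (Function.Injective fun a : (Fin m → Bool) × (Fin m → Bool) =>
        fun i => if i ∈ F then u a.1 i else v a.2 i) →
      ∃ a b, φ (fun i => if i ∈ F then u a i else v b i) ≠ β) (yv : C → Bool) :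
    ¬ HasRect {z | ∀ c, φ (fun i => z (pos c i)) = yv c}
      (∑ k ∈ range (M / h + 1), M.choose k + 1) := by
  rintro ⟨F, G, w, R₁, R₂, hFG, k₁, k₂, w₁, w₂, hX⟩
  obtain ⟨D₁, s₁, c₁, t₁⟩ := shat R₁ F w w₁ _ k₁
  obtain ⟨D₂, s₂, c₂, t₂⟩ := shat R₂ G w w₂ _ k₂
  obtain ⟨c, ι, hι⟩ := hpos (fun s => if s = true then D₂ else D₁) (by
    have := Nat.lt_mul_div_succ M hh
    rintro (_ | _)
    · exact this.le.trans (Nat.mul_le_mul_left h c₁)
    · exact this.le.trans (Nat.mul_le_mul_left h c₂))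
  have hi : ∀ s, Function.Injective fun a => pos c (ι (s, a)) := fun s a b e =>
    congrArg Prod.snd ((hι _).1 _ (hinj c e))
  choose u hu hu' using fun α : Fin m → Bool =>
    t₁ (Function.extend (fun a => pos c (ι (false, a))) α fun _ => false)
  choose v hv hv' using fun α : Fin m → Bool =>
    t₂ (Function.extend (fun a => pos c (ι (true, a))) α fun _ => false)
  obtain ⟨α, β, e⟩ := hφ (univ.filter fun i => pos c i ∈ F) (fun α i => u α (pos c i))
    (fun β i => v β (pos c i)) (yv c) (by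
      rintro ⟨α, β⟩ ⟨α', β'⟩ e
      refine Prod.ext (funext fun a => ?_) (funext fun a => ?_)
      · have e1 : pos c (ι (false, a)) ∈ D₁ := (hι (false, a)).2
        have := congrFun e (ι (false, a))
        simp only [mem_filter, mem_univ, s₁ e1, and_self, if_true, hu' _ _ e1] at this
        rwa [(hi false).extend_apply, (hi false).extend_apply] at this
      · have e1 : pos c (ι (true, a)) ∈ D₂ := (hι (true, a)).2
        have := congrFun e (ι (true, a))
        simp only [mem_filter, disjoint_right.1 hFG (s₂ e1), and_false, if_false,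
          hv' _ _ e1] at this
        rwa [(hi true).extend_apply, (hi true).extend_apply] at this)
  refine e (Eq.trans (congrArg φ (funext fun i => ?_)) (hX _ (hu α) _ (hv β) c))
  simp

end Pool.Agent.MP_6b3410_lc.R5
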