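import Mathlib
import Pool.Agent.MP_6b3410_lc.R5.ChainT
import Pool.Agent.MP_6b3410_lc.H48.Gadget4

/-!
Formulas in conjunctive normal form with hidden variables, some of whose clauses are visited by
lookups that read literals, as projections of Hamiltonicity.
-/

namespace Pool.Agent.MP_6b3410_lc.R5

open Classical Pool.Agent.MP_6b3410_lc.H5 Pool.Agent.MP_6b3410_lc.H75

/-- the value of a literal or constant -/
def ev {M : ℕ} (z : Fin M → Bool) (l : (Fin M × Bool) ⊕ Bool) : Bool :=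
  Sum.elim (fun p : Fin M × Bool => z p.1 == p.2) id l

lemma good_iff {τ M : ℕ} {Y K O : Type} {L : Y → ℕ} {row : Fin M → Y} {pos : Fin M → ℕ}
    (cl : O → K) (sc : O → Y) (sg : O → Bool) (oc : Y → ℕ → Option O) (hL : ∀ v, 2 ≤ L v)
    (ho1 : ∀ v m o, oc v m = some o → sc o = v ∧ 2 ≤ m)
    (ho2 : ∀ o, ∃ m, m < L (sc o) ∧ oc (sc o) m = some o)
    (h0 : ∀ j, pos j < L (row j)) (h1 : ∀ r m, m < L r → ∃ j, row j = r ∧ pos j = m)
    (h2 : ∀ j j', row j = row j' → pos j = pos j' → j = j')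
    (h3 : ∀ j j', row j = row j' → pos j + 1 = pos j' → j.val + 1 = j'.val)
    (A B : K → Prop) (D : K → K → Prop) :
    Good τ (fun j => (oc (row j) (pos j)).map cl) (fun j => ((oc (row j) (pos j)).map sg).getD false)
      (fun j b b' => pos j + 1 < L (row j) → b' = !b) A B D ↔
      ∃ y : Y → Bool, ∃ a b : Fin τ → K, Function.Injective a ∧ Function.Injective b ∧
        (∀ i, A (a i) ∧ B (b i) ∧ D (a i) (b i)) ∧
        ∀ κ, (∀ i, a i ≠ κ) → (∀ i, b i ≠ κ) → ∃ o, cl o = κ ∧ y (sc o) = sg o := by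
  constructor
  · rintro ⟨st, hT, a, b, ha, hb, hD, hcl⟩
    choose j1 hj1 hj2 using fun v => h1 v 0 (by have := hL v; omega)
    have hrow : ∀ m j, pos j = m → st j = st (j1 (row j)) := by
      intro m
      induction m with
      | zero => intro j hj; rw [← h2 j (j1 (row j)) (hj1 _).symm (by rw [hj, hj2])]
      | succ m ih =>
        intro j hj
        obtain ⟨j0, e1, e2⟩ := h1 (row j) m (by have := h0 j; omega)
        rw [hT _ _ (h3 j0 j e1 (by omega)) (by rw [e1, e2, ← hj]; exact h0 j), Bool.not_not,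
          ih j0 e2, e1]
    refine ⟨fun y => st (j1 y), a, b, ha, hb, hD, fun κ e e' => ?_⟩
    obtain ⟨j, e1, e2⟩ := hcl κ e e'
    obtain ⟨o, e3, e4⟩ := Option.map_eq_some_iff.1 e1
    refine ⟨o, e4, ?_⟩
    beta_reduce
    rw [(ho1 _ _ _ e3).1, ← hrow _ j rfl, e2]
    simp [e3]
  · rintro ⟨y, a, b, ha, hb, hD, hy⟩
    refine ⟨fun j => y (row j), fun j j' hj hlt => ?_, a, b, ha, hb, hD, fun κ e e' => ?_⟩
    · obtain ⟨j1, e1, e2⟩ := h1 _ _ hlt
      have := h3 j j1 e1.symm e2.symm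
      obtain rfl : j1 = j' := Fin.ext (by omega)
      beta_reduce
      rw [Bool.not_not, e1]
    · obtain ⟨o, rfl, e1⟩ := hy κ e e'
      obtain ⟨m, hm, e2⟩ := ho2 o
      obtain ⟨j, e3, e4⟩ := h1 _ _ hm
      exact ⟨j, by simp [e3, e4, e2], by simp [e3, e4, e2, e1]⟩

theorem look_proj {M N : ℕ} {Y K O ι : Type} [Fintype Y] [Fintype K] [Fintype O] [Fintype ι]
    [Nonempty Y] (cl : O → K) (sc : O → Y) (sg : O → Bool) (A B : K → Prop)
    (hAB : ∀ c, A c → ¬ B c) (lit : K → K → (Fin M × Bool) ⊕ Bool)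
    (hN : 3 * (3 * (2 * Fintype.card Y + Fintype.card O) + Fintype.card K + Fintype.card ι + 1)
      ≤ N) :
    ∃ pr : H19.Edge N → (Fin M × Bool) ⊕ Bool, ∀ z, H19.Ham (app pr z) ↔
      ∃ y : Y → Bool, ∃ a b : ι → K, Function.Injective a ∧ Function.Injective b ∧
        (∀ i, A (a i) ∧ B (b i) ∧ ev z (lit (a i) (b i)) = true) ∧
        ∀ κ, (∀ i, a i ≠ κ) → (∀ i, b i ≠ κ) → ∃ o, cl o = κ ∧ y (sc o) = sg o := by
  obtain ⟨L, oc, hM, hL, ho1, ho2⟩ := H48.exists_occ sc
  obtain ⟨row, pos, h0, h1, h2, h3⟩ := H19.exists_chain Y L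
  have hM0 : 0 < ∑ r, L r := by
    rw [hM]; have := Fintype.card_pos (α := Y); omega
  generalize (∑ r, L r) = S at *
  set τ := Fintype.card ι
  have hV : 3 * Fintype.card (Vx S K τ) ≤ N := by rw [card_vx, hM]; omega
  have : Nonempty (Vx S K τ) := ⟨Vx.P 0⟩
  obtain ⟨rail, hri, hr⟩ := H19.exists_rails (V := Vx S K τ) N hV
    (fun p : K × K => Vx.C p.1) (fun p => Vx.C p.2) (by
      rintro ⟨a, b⟩ ⟨a', b'⟩ e1 e2
      simp only [Vx.C.injEq] at e1 e2
      rw [e1, e2])
  obtain ⟨rho, hrho⟩ := hr (Arc τ (fun j => (oc (row j) (pos j)).map cl)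
    (fun j => ((oc (row j) (pos j)).map sg).getD false)
    (fun j b b' => pos j + 1 < L (row j) → b' = !b) A B fun _ _ => False) fun p h => h.2.2
  let lt : K × K → (Fin M × Bool) ⊕ Bool := fun p =>
    if A p.1 ∧ B p.2 then lit p.1 p.2 else Sum.inr false
  let pr : H19.Edge N → (Fin M × Bool) ⊕ Bool := fun e =>
    if h : ∃ p, rail p = e then lt h.choose else Sum.inr (rho e)
  have hpr : ∀ p, pr (rail p) = lt p := fun p => by
    have h : ∃ p', rail p' = rail p := ⟨p, rfl⟩
    simp only [pr, dif_pos h, hri h.choose_spec]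
  have hpr' : ∀ e, e ∉ Set.range rail → pr e = Sum.inr (rho e) := fun e he => dif_neg he
  refine ⟨pr, fun z => ?_⟩
  have hx : ∀ p, app pr z (rail p) = true ↔ A p.1 ∧ B p.2 ∧ ev z (lit p.1 p.2) = true := by
    intro p
    simp only [app, hpr, lt]
    split_ifs with h
    · simp only [h.1, h.2, true_and]; rfl
    · simp only [Sum.elim_inr, id, Bool.false_eq_true, false_iff]
      exact fun h' => h ⟨h'.1, h'.2.1⟩
  rw [hrho _ (fun e he => by simp [app, hpr' e he])]
  refine Iff.trans ?_ (((chain_iff (τ := τ) hM0 hAB).trans (good_iff cl sc sg oc hL ho1 ho2 h0 h1 h2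
    h3 A B fun c c' => ev z (lit c c') = true)).trans (exists_congr fun y => ?_))
  · refine iff_of_eq (congrArg DHam ?_)
    funext u v
    refine propext ⟨?_, fun hA => ?_⟩
    · rintro (hA | ⟨p, hp, rfl, rfl⟩)
      · cases u <;> cases v <;> first
          | exact hA
          | skip
        exact hA.2.2.elim
      · exact (hx p).1 hp
    · cases u <;> cases v <;> first
        | exact Or.inl hA
        | skip
      rename_i c c'
      exact Or.inr ⟨(c, c'), (hx _).2 hA, rfl, rfl⟩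
  · let e := Fintype.equivFin ι
    constructor
    · rintro ⟨a, b, ha, hb, hD, hy⟩
      exact ⟨a ∘ e, b ∘ e, ha.comp e.injective, hb.comp e.injective, fun i => hD _,
        fun κ h h' => hy κ (fun i => by simpa using h (e.symm i))
          fun i => by simpa using h' (e.symm i)⟩
    · rintro ⟨a, b, ha, hb, hD, hy⟩
      exact ⟨a ∘ e.symm, b ∘ e.symm, ha.comp e.symm.injective, hb.comp e.symm.injective,
        fun i => hD _, fun κ h h' => hy κ (fun i => by simpa using h (e i))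
          fun i => by simpa using h' (e i)⟩

/-- One selector is chosen in every group; a node all of whose two literals are implied by the
chosen selectors has to be visited by a lookup. -/
theorem imp_proj {M N : ℕ} {Big Sel Aux Im RN CN ι : Type} [Fintype Big] [Fintype Sel]
    [Fintype Aux] [Fintype Im] [Fintype RN] [Fintype CN] [Fintype ι] [Nonempty Sel]
    (grp : Sel → Big) (src : Im → Sel) (dst : Im → Aux) (r : RN ⊕ CN → Bool → Aux)
    (lit : RN → CN → (Fin M × Bool) ⊕ Bool)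
    (hN : 3 * (9 * Fintype.card Sel + 6 * Fintype.card Aux + 7 * Fintype.card Im +
      7 * (Fintype.card RN + Fintype.card CN) + Fintype.card Big + Fintype.card ι + 1) ≤ N) :
    ∃ pr : H19.Edge N → (Fin M × Bool) ⊕ Bool, ∀ z, H19.Ham (app pr z) ↔
      ∃ sel : Big → Sel, (∀ β, grp (sel β) = β) ∧ ∃ (a : ι → RN) (b : ι → CN),
        Function.Injective a ∧ Function.Injective b ∧ (∀ i, ev z (lit (a i) (b i)) = true) ∧
        ∀ v : RN ⊕ CN, (∀ s, ∃ e β, src e = sel β ∧ dst e = r v s) →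
          ∃ i, v = Sum.inl (a i) ∨ v = Sum.inr (b i) := by
  let cl : (Im × Bool) ⊕ Sel ⊕ (RN ⊕ CN) × Bool → Im ⊕ Big ⊕ RN ⊕ CN
    | .inl p => .inl p.1
    | .inr (.inl s) => .inr (.inl (grp s))
    | .inr (.inr p) => .inr (.inr p.1)
  let sc : (Im × Bool) ⊕ Sel ⊕ (RN ⊕ CN) × Bool → Sel ⊕ Aux
    | .inl p => if p.2 = true then .inr (dst p.1) else .inl (src p.1)
    | .inr (.inl s) => .inl s
    | .inr (.inr p) => .inr (r p.1 p.2)
  let sg : (Im × Bool) ⊕ Sel ⊕ (RN ⊕ CN) × Bool → Bool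
    | .inl p => p.2
    | .inr (.inl _) => true
    | .inr (.inr _) => false
  let lt : Im ⊕ Big ⊕ RN ⊕ CN → Im ⊕ Big ⊕ RN ⊕ CN → (Fin M × Bool) ⊕ Bool
    | .inr (.inr (.inl a)), .inr (.inr (.inr b)) => lit a b
    | _, _ => .inr false
  obtain ⟨pr, h⟩ := look_proj (N := N) (ι := ι) cl sc sg (fun κ => ∃ a, κ = .inr (.inr (.inl a)))
    (fun κ => ∃ b, κ = .inr (.inr (.inr b))) (by rintro _ ⟨a, rfl⟩ ⟨b, h⟩; simp at h) lt (by
      simp only [Fintype.card_sum, Fintype.card_prod, Fintype.card_bool]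
      omega)
  refine ⟨pr, fun z => (h z).trans ⟨?_, ?_⟩⟩
  · rintro ⟨y, a, b, ha, hb, hD, hy⟩
    choose a' ha' using fun i => (hD i).1
    choose b' hb' using fun i => (hD i).2.1
    have h1 : ∀ β, ∃ s, grp s = β ∧ y (.inl s) = true := by
      intro β
      obtain ⟨o, e1, e2⟩ := hy (.inr (.inl β)) (fun i => by simp [ha']) (fun i => by simp [hb'])
      rcases o with p | s | p <;> simp only [cl, reduceCtorEq, Sum.inr.injEq, Sum.inl.injEq] at e1
      exact ⟨s, e1, e2⟩
    choose sel hs1 hs2 using h1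
    have h2 : ∀ e, y (.inl (src e)) = true → y (.inr (dst e)) = true := by
      intro e he
      obtain ⟨o, e1, e2⟩ := hy (.inl e) (fun i => by simp [ha']) (fun i => by simp [hb'])
      rcases o with ⟨e', s⟩ | s | p <;> simp only [cl, reduceCtorEq, Sum.inl.injEq] at e1
      subst e1
      cases s
      · simp [sc, sg, he] at e2
      · simpa [sc, sg] using e2
    refine ⟨sel, hs1, a', b', fun i i' e => ha (by rw [ha', ha', e]),
      fun i i' e => hb (by rw [hb', hb', e]), fun i => ?_, fun v hv => ?_⟩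
    · have := (hD i).2.2
      rwa [ha', hb'] at this
    · by_contra hc
      push Not at hc
      obtain ⟨o, e1, e2⟩ := hy (.inr (.inr v))
        (fun i e => (hc i).1 (by rw [ha'] at e; simpa using e.symm))
        (fun i e => (hc i).2 (by rw [hb'] at e; simpa using e.symm))
      rcases o with p | s | ⟨v', s⟩ <;> simp only [cl, reduceCtorEq, Sum.inr.injEq] at e1
      subst e1
      obtain ⟨e, β, e3, e4⟩ := hv s
      have := h2 e (e3 ▸ hs2 β)
      simp [sc, sg, ← e4, this] at e2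
  · rintro ⟨sel, hs, a, b, ha, hb, hD, hv⟩
    let y : Sel ⊕ Aux → Bool
      | .inl s => decide (∃ β, s = sel β)
      | .inr x => decide (∃ e β, src e = sel β ∧ dst e = x)
    refine ⟨y, fun i => .inr (.inr (.inl (a i))), fun i => .inr (.inr (.inr (b i))),
      fun i i' e => ha (by simpa using e), fun i i' e => hb (by simpa using e),
      fun i => ⟨⟨_, rfl⟩, ⟨_, rfl⟩, hD i⟩, ?_⟩
    rintro (e | β | v) h1 h2
    · by_cases he : ∃ β, src e = sel β
      · obtain ⟨β, hβ⟩ := he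
        exact ⟨.inl (e, true), rfl, decide_eq_true ⟨e, β, hβ, rfl⟩⟩
      · exact ⟨.inl (e, false), rfl, decide_eq_false he⟩
    · exact ⟨.inr (.inl (sel β)), by simp [cl, hs], decide_eq_true ⟨β, rfl⟩⟩
    · by_cases hs : ∀ s, ∃ e β, src e = sel β ∧ dst e = r v s
      · obtain ⟨i, rfl | rfl⟩ := hv v hs
        exacts [absurd rfl (h1 i), absurd rfl (h2 i)]
      · obtain ⟨s, hs⟩ := not_forall.1 hs
        exact ⟨.inr (.inr (v, s)), rfl, decide_eq_false hs⟩

end Pool.Agent.MP_6b3410_lc.R5
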