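import Mathlib
import Pool.Agent.MP_6b3410_lc.R5.Look

/-!
Checks that read several bits along an induced matching, as a projection of Hamiltonicity.
-/

namespace Pool.Agent.MP_6b3410_lc.R5

open Classical Pool.Agent.MP_6b3410_lc.H75 Fintype

theorem sel_proj {M N : ℕ} {Mu L1 L2 TA IA TB IB RN CN ι ι1 ι2 : Type} [Fintype Mu] [Fintype L1]
    [Fintype L2] [Fintype TA] [Fintype IA] [Fintype TB] [Fintype IB] [Fintype RN] [Fintype CN]
    [Fintype ι] [Fintype ι1] [Fintype ι2] [Nonempty Mu]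
    (fA : Mu → ι → TA) (fB : Mu → ι → TB) (gA : L1 → ι1 → IA) (gB : L2 → ι2 → IB)
    (r1 : RN → TA) (r2 : RN → IA) (c1 : CN → TB) (c2 : CN → IB)
    (fr : Mu → L1 → ι → RN) (fc : Mu → L2 → ι → CN)
    (hfr : ∀ μ l, Function.Injective (fr μ l)) (hfc : ∀ μ l, Function.Injective (fc μ l))
    (hR : ∀ μ l ρ, (∃ x, ρ = fr μ l x) ↔ (∃ x, fA μ x = r1 ρ) ∧ ∃ x, gA l x = r2 ρ)
    (hC : ∀ μ l γ, (∃ x, γ = fc μ l x) ↔ (∃ x, fB μ x = c1 γ) ∧ ∃ x, gB l x = c2 γ)
    (lit : RN → CN → (Fin M × Bool) ⊕ Bool)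
    (hx : ∀ μ l l' x x', x ≠ x' → lit (fr μ l x) (fc μ l' x') = Sum.inr false)
    (hN : 3 * (9 * (card Mu + card L1 + card L2) + 6 * (card TA + card IA + card TB + card IB) +
      7 * (2 * (card Mu * card ι) + card L1 * card ι1 + card L2 * card ι2) +
      7 * (card RN + card CN) + card ι + 4) ≤ N) :
    ∃ pr : H19.Edge N → (Fin M × Bool) ⊕ Bool, ∀ z, H19.Ham (app pr z) ↔
      ∃ μ l l', ∀ x, ev z (lit (fr μ l x) (fc μ l' x)) = true := by
  let grp : Mu ⊕ L1 ⊕ L2 → Option Bool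
    | .inl _ => none
    | .inr (.inl _) => some false
    | .inr (.inr _) => some true
  let src : (Mu × ι ⊕ L1 × ι1) ⊕ (Mu × ι ⊕ L2 × ι2) → Mu ⊕ L1 ⊕ L2
    | .inl (.inl p) => .inl p.1
    | .inl (.inr p) => .inr (.inl p.1)
    | .inr (.inl p) => .inl p.1
    | .inr (.inr p) => .inr (.inr p.1)
  let dst : (Mu × ι ⊕ L1 × ι1) ⊕ (Mu × ι ⊕ L2 × ι2) → (TA ⊕ IA) ⊕ (TB ⊕ IB)
    | .inl (.inl p) => .inl (.inl (fA p.1 p.2))
    | .inl (.inr p) => .inl (.inr (gA p.1 p.2))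
    | .inr (.inl p) => .inr (.inl (fB p.1 p.2))
    | .inr (.inr p) => .inr (.inr (gB p.1 p.2))
  let r : RN ⊕ CN → Bool → (TA ⊕ IA) ⊕ (TB ⊕ IB)
    | .inl ρ, false => .inl (.inl (r1 ρ))
    | .inl ρ, true => .inl (.inr (r2 ρ))
    | .inr γ, false => .inr (.inl (c1 γ))
    | .inr γ, true => .inr (.inr (c2 γ))
  let S : Mu → L1 → L2 → Option Bool → Mu ⊕ L1 ⊕ L2
    | μ, _, _, none => .inl μ
    | _, l, _, some false => .inr (.inl l)
    | _, _, l', some true => .inr (.inr l')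
  have hS : ∀ μ l l' s, (∃ β, s = S μ l l' β) ↔
      s = .inl μ ∨ s = .inr (.inl l) ∨ s = .inr (.inr l') := by
    intro μ l l' s
    constructor
    · rintro ⟨_ | _ | _, rfl⟩ <;> simp [S]
    · rintro (rfl | rfl | rfl)
      exacts [⟨none, rfl⟩, ⟨some false, rfl⟩, ⟨some true, rfl⟩]
  have hon : ∀ μ l l' v, (∀ s, ∃ e β, src e = S μ l l' β ∧ dst e = r v s) ↔
      ∃ x, v = .inl (fr μ l x) ∨ v = .inr (fc μ l' x) := by
    intro μ l l' v
    simp only [exists_and_right, hS]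
    rcases v with ρ | γ
    · simp only [Sum.inl.injEq, reduceCtorEq, or_false, hR]
      simp [src, dst, r]
    · simp only [Sum.inr.injEq, reduceCtorEq, false_or, hC]
      simp [src, dst, r]
  obtain ⟨pr, h⟩ := imp_proj (N := N) (ι := ι) grp src dst r lit (by
    simp only [card_sum, card_prod, card_option, card_bool]
    omega)
  refine ⟨pr, fun z => (h z).trans ⟨?_, ?_⟩⟩
  · rintro ⟨sel, hs, a, b, ha, hb, hD, hv⟩
    obtain ⟨μ, l, l', rfl⟩ : ∃ μ l l', sel = S μ l l' := by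
      have h0 := hs none
      have h1 := hs (some false)
      have h2 := hs (some true)
      rcases e0 : sel none with μ | _ | _ <;> rcases e1 : sel (some false) with _ | l | _ <;>
        rcases e2 : sel (some true) with _ | _ | l' <;> simp [e0, e1, e2, grp] at h0 h1 h2
      refine ⟨μ, l, l', funext ?_⟩
      rintro (_ | _ | _)
      exacts [e0, e1, e2]
    have h1 : ∀ x, ∃ i, fr μ l x = a i := fun x => by
      simpa using hv _ ((hon μ l l' _).2 ⟨x, Or.inl rfl⟩)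
    have h2 : ∀ x, ∃ i, fc μ l' x = b i := fun x => by
      simpa using hv _ ((hon μ l l' _).2 ⟨x, Or.inr rfl⟩)
    choose π hπ using h1
    choose π' hπ' using h2
    have h3 : Function.Surjective π' := Finite.injective_iff_surjective.1 fun x x' e =>
      hfc μ l' (by rw [hπ', hπ', e])
    refine ⟨μ, l, l', fun x => ?_⟩
    obtain ⟨x', e⟩ := h3 (π x)
    have h4 := hD (π x)
    rw [← hπ, ← e, ← hπ'] at h4
    by_cases e' : x = x'
    · rwa [← e'] at h4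
    · rw [hx _ _ _ _ _ e'] at h4
      simp [ev] at h4
  · rintro ⟨μ, l, l', hD⟩
    refine ⟨S μ l l', ?_, fr μ l, fc μ l', hfr _ _, hfc _ _, hD, fun v hv => (hon _ _ _ _).1 hv⟩
    rintro (_ | _ | _) <;> rfl

theorem inst_proj {M N t : ℕ} {U U' J Q Q' W1 W2 L1 L2 : Type} [Fintype U] [Fintype U']
    [Fintype J] [Fintype Q] [Fintype Q'] [Fintype W1] [Fintype W2] [Fintype L1] [Fintype L2]
    [Nonempty W1] [Nonempty W2] (al : U → U' → Prop) (col : U' → J)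
    (x : W1 × W2 → Fin t → U) (y : W1 × W2 → Fin t → U')
    (hv : ∀ ω i j, al (x ω i) (y ω j) ↔ i = j) (p : L1 → Fin t → Q) (p' : L2 → J → Q')
    (ps : Fin t × U × Q → U' × Q' → Fin M) (φ : (Fin t → Bool) → Bool)
    (yv : (W1 × W2) × L1 × L2 → Bool)
    (hN : 3 * (9 * (card W1 * card W2 * 2 ^ t + card L1 + card L2) +
      6 * (t * card U + card W1 + (t * card Q + card L1) + (card U' * 2 + card W2 * 2) +
        (card J * card Q' + card L2)) +
      7 * (2 * (card W1 * card W2 * 2 ^ t * (t + 1)) + card L1 * (t + 1) + card L2 * (card J + 1)) +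
      7 * (t * (card U * card Q) + card W1 * card L1 +
        (card U' * 2 * card Q' + card W2 * 2 * card L2)) + (t + 1) + 4) ≤ N) :
    ∃ pr : H19.Edge N → (Fin M × Bool) ⊕ Bool, ∀ z, H19.Ham (app pr z) ↔
      ∃ c : (W1 × W2) × L1 × L2, φ (fun i => z (ps (i, x c.1 i, p c.2.1 i)
        (y c.1 i, p' c.2.2 (col (y c.1 i))))) ≠ yv c := by
  let lit : (Fin t × U × Q) ⊕ W1 × L1 → (U' × Bool) × Q' ⊕ (W2 × Bool) × L2 →
      (Fin M × Bool) ⊕ Bool
    | .inl a, .inl b => if al a.2.1 b.1.1 then .inl (ps a (b.1.1, b.2), b.1.2) else .inr false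
    | .inr a, .inr b => .inr (decide (b.1.2 ≠ yv ((a.1, b.1.1), a.2, b.2)))
    | _, _ => .inr false
  let fr : (W1 × W2) × (Fin t → Bool) → L1 → Option (Fin t) → (Fin t × U × Q) ⊕ W1 × L1
    | μ, l, some i => .inl (i, x μ.1 i, p l i)
    | μ, l, none => .inr (μ.1.1, l)
  let fc : (W1 × W2) × (Fin t → Bool) → L2 → Option (Fin t) →
      (U' × Bool) × Q' ⊕ (W2 × Bool) × L2
    | μ, l, some i => .inl ((y μ.1 i, μ.2 i), p' l (col (y μ.1 i)))
    | μ, l, none => .inr ((μ.1.2, φ μ.2), l)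
  obtain ⟨pr, h⟩ := sel_proj (N := N) (TA := Fin t × U ⊕ W1) (IA := Fin t × Q ⊕ L1)
    (TB := U' × Bool ⊕ W2 × Bool) (IB := J × Q' ⊕ L2) (ι1 := Option (Fin t)) (ι2 := Option J)
    (fun μ o => o.elim (.inr μ.1.1) fun i => .inl (i, x μ.1 i))
    (fun μ o => o.elim (.inr (μ.1.2, φ μ.2)) fun i => .inl (y μ.1 i, μ.2 i))
    (fun l o => o.elim (.inr l) fun i => .inl (i, p l i))
    (fun l o => o.elim (.inr l) fun j => .inl (j, p' l j))
    (Sum.map (fun a => (a.1, a.2.1)) Prod.fst) (Sum.map (fun a => (a.1, a.2.2)) Prod.snd)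
    (Sum.map Prod.fst Prod.fst) (Sum.map (fun b => (col b.1.1, b.2)) Prod.snd) fr fc
    (by
      rintro μ l (_ | i) (_ | j) e <;> simp [fr] at e ⊢
      exact e.1)
    (by
      rintro μ l (_ | i) (_ | j) e <;> simp [fc] at e ⊢
      exact (hv μ.1 i j).1 (e.1.1 ▸ (hv μ.1 i i).2 rfl))
    (by
      rintro μ l (⟨i, u, q⟩ | ⟨w, l'⟩) <;> simp [fr, Option.exists, eq_comm])
    (by
      rintro μ l (⟨⟨u, s⟩, q⟩ | ⟨⟨w, s⟩, l'⟩) <;> simp [fc, Option.exists, eq_comm]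
      exact ⟨fun ⟨i, h1, h2⟩ => ⟨⟨i, h1⟩, h1.1 ▸ h2⟩, fun ⟨⟨i, h1⟩, h2⟩ => ⟨i, h1, h1.1 ▸ h2⟩⟩)
    lit
    (by
      rintro μ l l' (_ | i) (_ | j) e <;> simp [fr, fc, lit, hv] at e ⊢
      exact e)
    (by simpa only [card_sum, card_prod, card_option, card_bool, card_fin, card_fun] using hN)
  refine ⟨pr, fun z => (h z).trans ⟨?_, ?_⟩⟩
  · rintro ⟨⟨ω, a⟩, l, l', h1⟩
    refine ⟨(ω, l, l'), ?_⟩
    have h2 : (fun i => z (ps (i, x ω i, p l i) (y ω i, p' l' (col (y ω i))))) = a :=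
      funext fun i => by simpa [fr, fc, lit, hv, ev] using h1 (some i)
    simpa [fr, fc, lit, ev, h2] using h1 none
  · rintro ⟨⟨ω, l, l'⟩, h1⟩
    refine ⟨(ω, fun i => z (ps (i, x ω i, p l i) (y ω i, p' l' (col (y ω i))))), l, l', ?_⟩
    rintro (_ | i)
    · simpa [fr, fc, lit, ev] using h1
    · simp [fr, fc, lit, hv, ev]

end Pool.Agent.MP_6b3410_lc.R5
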