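import Mathlib
import Pool.Agent.MP_6b3410_lc.R5.Hit
import Pool.Agent.MP_6b3410_lc.R5.Inst

/-!
A projection of Hamiltonicity on quadratically many variables whose set of non-Hamiltonian points
is dense and has no large rectangle.
-/

namespace Pool.Agent.MP_6b3410_lc.R5

open Classical Finset Pool.Agent.MP_6b3410_lc.H75

lemma exists_mu (C : ℕ) : ∃ μ : ℕ, 1 ≤ μ ∧ C * μ ^ 3 ≤ 2 ^ μ := by
  have h := tendsto_pow_const_div_const_pow_of_one_lt 3 (r := 2) (by norm_num)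
  obtain ⟨μ, h1, h2⟩ := ((h.eventually (gt_mem_nhds (show (0 : ℝ) < 1 / (C + 1) by positivity))).and
    (Filter.eventually_ge_atTop 1)).exists
  refine ⟨μ, h2, ?_⟩
  rw [div_lt_div_iff₀ (by positivity) (by positivity)] at h1
  have : (C : ℝ) * μ ^ 3 ≤ 2 ^ μ := by nlinarith [pow_nonneg (Nat.cast_nonneg (α := ℝ) μ) 3]
  exact_mod_cast this

lemma size_le {a1 a2 L1 L2 t t' E q q' B N P : ℕ} (h1 : a1 * a2 * P * (t + 1) ≤ B)
    (h2 : a1 * L1 ≤ B) (h3 : a2 * L2 ≤ B) (h4 : t ≤ a1) (h5 : t' ≤ a2) (h6 : t * (E * q) = B)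
    (h7 : t' * E * q' = B) (ht : 0 < t) (ht' : 0 < t') (hE : 0 < E) (hq : 0 < q) (hq' : 0 < q')
    (hL1 : 0 < L1) (hL2 : 0 < L2) (hN : 531 * B ≤ N) :
    3 * (9 * (a1 * a2 * P + L1 + L2) +
      6 * (t * E + a1 + (t * q + L1) + (t' * E * 2 + a2 * 2) + (t' * q' + L2)) +
      7 * (2 * (a1 * a2 * P * (t + 1)) + L1 * (t + 1) + L2 * (t' + 1)) +
      7 * (t * (E * q) + a1 * L1 + (t' * E * 2 * q' + a2 * 2 * L2)) + (t + 1) + 4) ≤ N := by
  have e1 : a1 * a2 * P ≤ B := (Nat.le_mul_of_pos_right _ (Nat.succ_pos t)).trans h1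
  have e2 : L1 * t ≤ B := le_trans (by rw [mul_comm]; exact Nat.mul_le_mul_right _ h4) h2
  have e3 : L2 * t' ≤ B := le_trans (by rw [mul_comm]; exact Nat.mul_le_mul_right _ h5) h3
  have e4 : L1 ≤ B := (Nat.le_mul_of_pos_right _ ht).trans e2
  have e5 : L2 ≤ B := (Nat.le_mul_of_pos_right _ ht').trans e3
  have e6 : t * E ≤ B := h6 ▸ Nat.mul_le_mul_left _ (Nat.le_mul_of_pos_right _ hq)
  have e7 : t * q ≤ B := h6 ▸ Nat.mul_le_mul_left _ (Nat.le_mul_of_pos_left _ hE)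
  have e8 : t' * E ≤ B := h7 ▸ Nat.le_mul_of_pos_right _ hq'
  have e9 : t' * q' ≤ B := h7 ▸ Nat.mul_le_mul_right _ (Nat.le_mul_of_pos_right _ hE)
  have e10 : a1 ≤ B := (Nat.le_mul_of_pos_right _ hL1).trans h2
  have e11 : a2 ≤ B := (Nat.le_mul_of_pos_right _ hL2).trans h3
  rw [mul_right_comm _ 2 q', mul_right_comm a2, mul_add L1, mul_add L2]
  omega

theorem hard (δ : ℝ) (hδ : 0 < δ) : ∃ n₀ : ℕ, ∀ N : ℕ, n₀ ≤ N →
    ∃ (M : ℕ) (pr : H19.Edge N → (Fin M × Bool) ⊕ Bool) (K : ℕ), N ^ 2 ≤ 4 * 1062 ^ 2 * M ∧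
      (K : ℝ) ≤ Real.exp (δ * M) ∧
      (2 : ℝ) ^ M ≤ Real.exp (δ * M / 2) * {z | ¬ H19.Ham (app pr z)}.ncard ∧
      ¬ HasRect {z | ¬ H19.Ham (app pr z)} K := by
  obtain ⟨h, hh, htail⟩ := tail δ hδ
  obtain ⟨w, hw⟩ := exists_nat_ge (8 / δ)
  have hw0 : 0 < w := by
    have : (0 : ℝ) < w := lt_of_lt_of_le (by positivity) hw
    exact_mod_cast this
  rw [div_le_iff₀ hδ] at hw
  obtain ⟨H, hH⟩ : ∃ H, H = 2 * (2 * h) := ⟨_, rfl⟩
  have hH0 : 4 ≤ H := by omega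
  obtain ⟨μ, hμ, hX⟩ := exists_mu (512 * H ^ 3 + 3 + (256 * H ^ 2 + 1) * w + 64 * H)
  obtain ⟨X, hXdef⟩ : ∃ X, X = 2 ^ μ := ⟨_, rfl⟩
  obtain ⟨m, hm⟩ : ∃ m, m = 4 * μ := ⟨_, rfl⟩
  obtain ⟨t, ht⟩ : ∃ t, t = H * X ^ 3 := ⟨_, rfl⟩
  obtain ⟨m2, hm2⟩ : ∃ m2, m2 = 2 * m * (H * m) * (H * m) := ⟨_, rfl⟩
  obtain ⟨t', ht'⟩ : ∃ t', t' = 8 * (2 * h) * m2 := ⟨_, rfl⟩
  have hμ3 : 1 ≤ μ ^ 3 := Nat.one_le_pow _ _ hμ
  have hmX : 2 ^ m = X ^ 4 := by rw [hm, hXdef, ← pow_mul, mul_comm]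
  rw [← hXdef] at hX
  have e1 : m2 = 128 * H ^ 2 * μ ^ 3 := by rw [hm2, hm]; ring
  have e2 : t' = 512 * H ^ 3 * μ ^ 3 := by rw [ht', e1, hH]; ring
  have x1 : t' + 3 ≤ X := by rw [e2]; nlinarith [Nat.zero_le ((256 * H ^ 2 + 1) * w * μ ^ 3)]
  have x2 : (2 * m2 + 1) * w ≤ X := by
    rw [e1]; nlinarith [Nat.zero_le (H ^ 3 * μ ^ 3), Nat.mul_le_mul_left w hμ3]
  have x3 : 64 * H * μ ^ 3 ≤ X := by
    nlinarith [Nat.zero_le (H ^ 3 * μ ^ 3), Nat.zero_le ((256 * H ^ 2 + 1) * w * μ ^ 3)]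
  have x4 : 64 * H ≤ X := (Nat.le_mul_of_pos_right _ hμ3).trans x3
  have x5 : X ≤ X ^ 3 := Nat.le_self_pow (by norm_num) _
  have x6 : X ≤ X ^ 4 := Nat.le_self_pow (by norm_num) _
  have hm0 : 0 < m := by omega
  have hg : 0 < H * m := Nat.mul_pos (by omega) hm0
  have ht0 : X ≤ t := by rw [ht]; nlinarith
  have ht'0 : 0 < t' := by rw [e2]; positivity
  have x7 : 2 * (2 * m * (H * m)) ≤ 2 ^ m := by
    have : μ ^ 2 ≤ μ ^ 3 := Nat.pow_le_pow_right hμ (by norm_num)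
    rw [hmX, hm]
    nlinarith
  obtain ⟨φ, hφ⟩ := dsp t m (by rw [hmX, ht]; nlinarith)
  obtain ⟨E', hE'0, hE'⟩ : ∃ E', 0 < E' ∧ 2 ^ (2 * (t * t + 5 * t)) = X * E' := by
    have : μ < X := hXdef ▸ Nat.lt_two_pow_self
    refine ⟨2 ^ (2 * (t * t + 5 * t) - μ), by positivity, ?_⟩
    rw [hXdef, ← pow_add, Nat.add_sub_cancel' (by omega)]
  have hg0 := lindsey (Fin t') (t * t + 5 * t)
  have hU : Fintype.card (Fin (2 * (t * t + 5 * t)) → ZMod 2) = X * E' := by simp [← hE']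
  generalize (fun (u : Fin (2 * (t * t + 5 * t)) → ZMod 2)
    (v : Fin t' × (Fin (2 * (t * t + 5 * t)) → ZMod 2)) => ∑ k, u k * v.2 k ≠ 0) = al at hg0
  have : Nonempty (Fin t') := ⟨⟨0, ht'0⟩⟩
  obtain ⟨x, y, hv, hB⟩ := blk (Λ := Fin (t * E') × Fin (t' * E')) hg0 (by positivity) (2 * h)
    (X ^ 3) m2 t (by omega) (by omega) (by rw [ht, hH]) (by simp) (by simp [ht']) (by
      simp only [Fintype.card_prod, Fintype.card_fin, hU]
      have : 2 * X ^ 2 + (3 + t') < X ^ 3 := by nlinarith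
      have h2 : 0 < t * E' * (t' * E') := by have : 0 < t := by omega
                                             positivity
      nlinarith [Nat.mul_lt_mul_of_pos_right this h2])
  have hA := dens hg0 (by
    rw [← pow_one (2 : ℝ)]
    exact one_div_le_one_div_of_le (by norm_num) (by
      simpa using pow_le_pow_right₀ (a := (2 : ℝ)) (by norm_num) (show 1 ≤ t * t + 5 * t by omega)))
  simp only [Fintype.card_prod, Fintype.card_fin, hU] at hA
  refine ⟨531 * (t * t' * (X * E')) * (t * E' * (t' * E') * 2 ^ t * (t + 1) + t + t' + w),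
    fun N hN => ?_⟩
  have hb : 0 < 531 * (t * t' * (X * E')) := by
    have : 0 < t := by omega
    have : 0 < X := by omega
    positivity
  obtain ⟨r, hr1, hr2⟩ : ∃ r, 531 * (t * t' * (X * E')) * r ≤ N ∧
      N < 531 * (t * t' * (X * E')) * (r + 1) := ⟨_, Nat.mul_div_le _ _, Nat.lt_mul_div_succ _ hb⟩
  have hr := lt_of_mul_lt_mul_left (hN.trans_lt hr2) (Nat.zero_le _)
  obtain ⟨B, hBdef⟩ : ∃ B, B = t * t' * (X * E') * r := ⟨_, rfl⟩
  have hrB : r ≤ B := hBdef ▸ Nat.le_mul_of_pos_left _ (by omega)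
  have hq : t ≤ t' * r := le_trans (by omega) (Nat.le_mul_of_pos_left _ ht'0)
  have hq' : t' ≤ t * r := le_trans (by omega) (Nat.le_mul_of_pos_left r (by omega))
  have : Nonempty (Fin (t' * r)) := ⟨⟨0, by omega⟩⟩
  have : Nonempty (Fin (t * r)) := ⟨⟨0, by omega⟩⟩
  obtain ⟨p, hp⟩ := R5.ht (G := (Bool × Fin m) × Fin (H * m)) (T := Fin t) (Q := Fin (t' * r)) H m
    (m2 * (t' * r + t) + 1) (by omega) (by simpa using x7) (by simp [hm2])
  obtain ⟨p', hp'⟩ := R5.ht (G := Bool × Fin m) (T := Fin t') (Q := Fin (t * r)) H m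
    (2 * m * (H * m) * (t * r + t') + 1) (by omega)
    (le_trans (by
      simp only [Fintype.card_prod, Fintype.card_bool, Fintype.card_fin]
      exact Nat.mul_le_mul_left 2 (Nat.le_mul_of_pos_right _ hg)) x7) (by simp)
  generalize hL1 : m2 * (t' * r + t) + 1 = L1 at p hp
  generalize hL2 : 2 * m * (H * m) * (t * r + t') + 1 = L2 at p' hp'
  have y1 : t * E' * L1 * w ≤ B := by
    have : L1 ≤ (2 * m2 + 1) * (t' * r) := by
      rw [← hL1]
      linarith [Nat.mul_le_mul_left m2 hq]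
    calc _ ≤ t * E' * ((2 * m2 + 1) * (t' * r)) * w := by gcongr
      _ = t * E' * (t' * r) * ((2 * m2 + 1) * w) := by ring
      _ ≤ t * E' * (t' * r) * X := by gcongr
      _ = B := by rw [hBdef]; ring
  have y2 : t' * E' * L2 * w ≤ B := by
    have f1 : 2 * m * (H * m) ≤ m2 := hm2 ▸ Nat.le_mul_of_pos_right _ hg
    have : L2 ≤ (2 * m2 + 1) * (t * r) := by
      rw [← hL2]
      linarith [Nat.mul_le_mul_left m2 hq', Nat.mul_le_mul_right (t * r + t') f1]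
    calc _ ≤ t' * E' * ((2 * m2 + 1) * (t * r)) * w := by gcongr
      _ = t' * E' * (t * r) * ((2 * m2 + 1) * w) := by ring
      _ ≤ t' * E' * (t * r) * X := by gcongr
      _ = B := by rw [hBdef]; ring
  obtain ⟨M, hM⟩ : ∃ M, M = t * (alw al).card * (t' * r * (t * r)) := ⟨_, rfl⟩
  have y3 : B * B ≤ 4 * M := by
    calc _ = t * (X * E' * (t' * (X * E'))) * (t' * r * (t * r)) := by rw [hBdef]; ring
      _ ≤ t * (4 * (alw al).card) * (t' * r * (t * r)) := by gcongr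
      _ = _ := by rw [hM]; ring
  have y4 : w ≤ 4 * M := le_trans (by omega) ((Nat.le_mul_self B).trans y3)
  let e : (Fin t × alw al) × Fin (t' * r) × Fin (t * r) ≃ Fin M :=
    Fintype.equivFinOfCardEq (by simp [hM])
  let ps : Fin t × _ × Fin (t' * r) → _ × Fin (t * r) → Fin M := fun a b =>
    if h : al a.2.1 b.1 then e ((a.1, ⟨(a.2.1, b.1), mem_alw.2 h⟩), a.2.2, b.2) else ⟨0, by omega⟩
  let pos : (Fin (t * E') × Fin (t' * E')) × Fin L1 × Fin L2 → Fin t → Fin M := fun c i =>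
    ps (i, x c.1 i, p c.2.1 i) (y c.1 i, p' c.2.2 (y c.1 i).1)
  obtain ⟨yv, hyv⟩ := pigeon fun z c => φ fun i => z (pos c i)
  have : Nonempty (Fin (t * E')) := ⟨⟨0, Nat.mul_pos (by omega) hE'0⟩⟩
  have : Nonempty (Fin (t' * E')) := ⟨⟨0, Nat.mul_pos ht'0 hE'0⟩⟩
  obtain ⟨pr, hpr⟩ := inst_proj (N := N) al Prod.fst x y hv p p' ps φ yv (by
    simp only [Fintype.card_prod, Fintype.card_fin, hU]
    exact size_le (B := B) (by omega) ((Nat.le_mul_of_pos_right _ hw0).trans y1)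
      ((Nat.le_mul_of_pos_right _ hw0).trans y2) (Nat.le_mul_of_pos_right _ hE'0)
      (Nat.le_mul_of_pos_right _ hE'0) (by rw [hBdef]; ring) (by rw [hBdef]; ring) (by omega) ht'0
      (Nat.mul_pos (by omega) hE'0) (by omega) (by omega) (by omega) (by omega)
      (by rw [hBdef, ← mul_assoc]; exact hr1))
  have hf : {z | ¬ H19.Ham (app pr z)} = {z | ∀ c, φ (fun i => z (pos c i)) = yv c} := by
    ext z
    simp only [Set.mem_ofPred_eq, hpr, not_exists, not_not]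
    rfl
  have y5 : (w : ℝ) ≤ 4 * M := by exact_mod_cast y4
  refine ⟨M, pr, _, ?_, htail M (by linarith [mul_le_mul_of_nonneg_right y5 hδ.le]), ?_, hf ▸ no_rect pos (fun c i j hij => ?_)
    (fun D hD => ?_) hh φ hφ yv⟩
  · have : N ≤ 1062 * B := hr2.le.trans ((Nat.mul_le_mul_left _ (show r + 1 ≤ 2 * r by omega)).trans
      (le_of_eq (by rw [hBdef]; ring)))
    calc _ ≤ (1062 * B) ^ 2 := Nat.pow_le_pow_left this 2
      _ = 1062 ^ 2 * (B * B) := by ring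
      _ ≤ 1062 ^ 2 * (4 * M) := Nat.mul_le_mul_left _ y3
      _ = _ := by ring
  · have f1 : t * E' * (t' * E') * (L1 * L2) * w ≤ 4 * M := by
      calc _ ≤ t * E' * (t' * E') * (L1 * L2) * w * w := Nat.le_mul_of_pos_right _ hw0
        _ = t * E' * L1 * w * (t' * E' * L2 * w) := by ring
        _ ≤ _ := (Nat.mul_le_mul y1 y2).trans y3
    simp only [Fintype.card_prod, Fintype.card_fin] at hyv
    generalize t * E' * (t' * E') * (L1 * L2) = L at f1 hyv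
    have f2 : (L : ℝ) * w ≤ 4 * M := by exact_mod_cast f1
    have f3 : (2 : ℝ) ^ L ≤ Real.exp (δ * M / 2) := by
      calc _ ≤ Real.exp 1 ^ L := by
            gcongr
            linarith [Real.add_one_le_exp 1]
        _ ≤ _ := by
            rw [← Real.exp_nat_mul, Real.exp_le_exp]
            linarith [mul_le_mul_of_nonneg_left hw (Nat.cast_nonneg (α := ℝ) L),
              mul_le_mul_of_nonneg_right f2 hδ.le]
    rw [hf]
    refine le_trans ?_ (mul_le_mul_of_nonneg_right f3 (by positivity))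
    exact_mod_cast hyv
  · simp only [pos, ps, dif_pos ((hv c.1 _ _).2 rfl)] at hij
    exact congrArg (fun z => z.1.1) (e.injective hij)
  · subst hH
    obtain ⟨ω, l, l', ι, hι⟩ := hit (h := h) x y (hm2 ▸ hB) p hp p' hp' ps (fun k => by
      obtain ⟨⟨⟨i, ⟨u, v⟩, huv⟩, q, q'⟩, rfl⟩ := e.surjective k
      exact ⟨(i, u, q), (v, q'), mem_alw.1 huv, dif_pos (mem_alw.1 huv)⟩) (by simp [hM]) D hD
    exact ⟨(ω, l, l'), ι, hι⟩

end Pool.Agent.MP_6b3410_lc.R5
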