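import Mathlib
import Pool.Agent.MP_6b3410_lc.R5.Hard
import Pool.Agent.MP_6b3410_lc.R5.Decomp
import Pool.Agent.MP_6b3410_lc.H75.Rect

/-!
The bound `exp (c n ^ 2)` for networks with short proof trees on non-Hamiltonian graphs.
-/

namespace Pool.Agent.MP_6b3410_lc.R5

open Finset Pool.Agent.MP_6b3410_lc.H75

theorem bound (k : ℕ) : ∃ c : ℝ, 0 < c ∧ ∃ n₀ : ℕ, ∀ N : ℕ, n₀ ≤ N →
    ∀ (s : ℕ) (I : Fin s → Finset (H19.Edge N ⊕ Fin s)) (o : Fin s)
      (val : (H19.Edge N → Bool) → Fin s → Bool),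
      (∀ x g, val x g = true ↔ ∃ u ∈ I g, Sum.elim x (val x) u = false) →
      (∀ x, val x o = false → ¬ H19.Ham x) →
      (∀ x, ¬ H19.Ham x → ∃ L, ProofTree I x (Sum.inr o) false L ∧
        Multiset.card L ≤ k * N ^ 2) →
      Real.exp (c * (N : ℝ) ^ 2) ≤ s := by
  classical
  obtain ⟨C, hC4, hard⟩ : ∃ C : ℕ, 4 ≤ C ∧ ∀ δ : ℝ, 0 < δ → ∃ n₀ : ℕ, ∀ N : ℕ, n₀ ≤ N →
      ∃ (M : ℕ) (pr : H19.Edge N → (Fin M × Bool) ⊕ Bool) (K : ℕ), N ^ 2 ≤ C * M ∧
        (K : ℝ) ≤ Real.exp (δ * M) ∧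
        (2 : ℝ) ^ M ≤ Real.exp (δ * M / 2) * {z | ¬ H19.Ham (app pr z)}.ncard ∧
        ¬ HasRect {z | ¬ H19.Ham (app pr z)} K := ⟨_, by norm_num, hard⟩
  obtain ⟨r, δ, n₁, hr, hδ, hR⟩ := rect (2 * k * C + 1)
  obtain ⟨n₂, hard⟩ := hard δ hδ
  have hr0 : (0 : ℝ) < r := by exact_mod_cast hr
  have hC0 : (4 : ℝ) ≤ C := by exact_mod_cast hC4
  set u : ℝ := δ / (8 * r) with hu
  have hu0 : 0 < u := by positivity
  obtain ⟨n₃, hn₃⟩ := exists_nat_ge (2 * C / u ^ 2)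
  refine ⟨u / C, by positivity, n₂ + C * (n₁ + n₃ + r), fun N hN s I o val hval h1 h2 => ?_⟩
  obtain ⟨M, pr, K, hM, hK, hd, hc⟩ := hard N (by omega)
  have hn : n₁ + n₃ + r ≤ M := Nat.le_of_mul_le_mul_left
    (le_trans (by omega) ((Nat.le_self_pow two_ne_zero N).trans hM)) (show 0 < C by omega)
  have hM' : (N : ℝ) ^ 2 ≤ C * M := by exact_mod_cast hM
  have hM1 : (1 : ℝ) ≤ M := by exact_mod_cast (show 1 ≤ M by omega)
  obtain ⟨A, hA1, hA2, hA3⟩ := net_decomp I o (k * N ^ 2) r (2 * k * C * M / r + 1) pr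
    {z | ¬ H19.Ham (app pr z)} hr (Nat.succ_pos _) (by
      have := Nat.lt_mul_div_succ (2 * k * C * M) hr
      have := Nat.mul_le_mul_left (2 * k) hM
      nlinarith) false (fun z => val (app pr z)) (fun z => hval _) (fun z h => h1 _ h)
    fun z hz => h2 _ hz
  have key : Real.exp (δ * M / 2) < (4 * (Fintype.card (H19.Edge N) + s) ^ 2) ^ r := by
    by_contra hcon
    obtain ⟨F, G, w, R₁, R₂, f1, f2, f3, f4, f5, f6⟩ := hR M (by omega) _ (by
      have := Nat.mul_div_le (2 * k * C * M) r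
      have : r ≤ M := by omega
      nlinarith) A hA1 (by
      have e1 : ({z | ¬ H19.Ham (app pr z)}.ncard : ℝ) ≤
          (4 * (Fintype.card (H19.Edge N) + s) ^ 2) ^ r * (⋂ j, A j).ncard := by exact_mod_cast hA3
      rw [Real.exp_neg, ← div_eq_mul_inv, div_le_iff₀ (Real.exp_pos _), mul_comm,
        show δ * M = δ * M / 2 + δ * M / 2 by ring, Real.exp_add, mul_assoc]
      exact hd.trans (mul_le_mul_of_nonneg_left (e1.trans (mul_le_mul_of_nonneg_right
        (not_lt.1 hcon) (by positivity))) (by positivity))) K hK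
    exact hc ⟨F, G, w, R₁, R₂, f1, f2, f3, f4, f5, fun u hu v hv => hA2 (f6 u hu v hv)⟩
  have key2 : Real.exp (u * M) * Real.exp (u * M) < 2 * (Fintype.card (H19.Edge N) + s) := by
    refine lt_of_pow_lt_pow_left₀ (2 * r) (by positivity) ?_
    rw [← Real.exp_add, ← Real.exp_nat_mul, show (2 * r : ℕ) * (u * M + u * M) = δ * M / 2 by
      rw [hu]; push_cast; field_simp; ring]
    refine key.trans_eq ?_
    rw [pow_mul]
    congr 1
    ring
  have hV : (Fintype.card (H19.Edge N) : ℝ) ≤ C * M := by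
    have e1 : Fintype.card (H19.Edge N) ≤ N ^ 2 :=
      (Fintype.card_subtype_le _).trans (by simp [sq])
    exact_mod_cast e1.trans hM
  have hE : (C * M : ℝ) ≤ Real.exp (u * M) := by
    refine le_trans ?_ (Real.pow_div_factorial_le_exp _ (by positivity) 2)
    have e1 : 2 * C / u ^ 2 ≤ M := hn₃.trans (by exact_mod_cast (show n₃ ≤ M by omega))
    rw [div_le_iff₀ (by positivity)] at e1
    rw [le_div_iff₀ (by positivity), Nat.factorial_two]
    calc _ = (2 * C : ℝ) * M := by push_cast; ring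
      _ ≤ M * u ^ 2 * M := by gcongr
      _ = _ := by ring
  have h8 : (4 : ℝ) ≤ C * M := by nlinarith
  calc _ ≤ Real.exp (u * M) := by
        rw [Real.exp_le_exp]
        calc _ ≤ u / C * (C * M) := by gcongr
          _ = _ := by field_simp
    _ ≤ _ := by nlinarith [Real.exp_pos (u * M)]

end Pool.Agent.MP_6b3410_lc.R5
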